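import Mathlib
import Pool.Agent.Run7.h490.MX1

set_option autoImplicit false
set_option linter.unusedSectionVars false
set_option linter.unusedVariables false

/-!
# Generic, symmetric and alternating matrices, part 1: the combinatorial core

`B a` stands for the exterior product of the vectors `e (a (l, false)) (a (l, true))` of cells, where a
cell is an unordered pair of indices; the slots of the cells are the pairs `(l, t)`.
-/

namespace Pool.Agent.Run7.h817.SY

open Finset Function Pool.Agent.Run7.h490.MX

/-- A family of generic matrices. The indices `0, …, n - 1` are divided into groups, and every group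
has a mate. If a group is its own mate it belongs to a generic symmetric or alternating matrix; two groups
which are mates of each other belong to the rows and the columns of a generic matrix. -/
structure Shape (n : ℕ) (β : Type) where
  /-- the group of an index -/
  grp : Fin n → β
  /-- the mate of a group -/
  mate : β → β
  /-- is the matrix alternating? -/
  alt : β → Bool
  mate_mate : ∀ x, mate (mate x) = x
  alt_mate : ∀ x, alt (mate x) = alt x

namespace Shape

variable {n : ℕ} {β : Type} (Γ : Shape n β)

/-- the sign of a group: `-1` for alternating matrices, `1` otherwise -/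
def sg (x : β) : ℤ := if Γ.alt x then -1 else 1

theorem sg_sq (x : β) : Γ.sg x * Γ.sg x = 1 := by
  unfold sg
  split_ifs <;> norm_num

theorem sg_mate (x : β) : Γ.sg (Γ.mate x) = Γ.sg x := by
  unfold sg
  rw [Γ.alt_mate]

theorem mate_inj {x y : β} (h : Γ.mate x = Γ.mate y) : x = y := by
  rw [← Γ.mate_mate x, h, Γ.mate_mate]

end Shape

section slots

variable {N : Type}

/-- the other slot of the same cell -/
def br (u : N × Bool) : N × Bool := (u.1, !u.2)

theorem br_br (u : N × Bool) : br (br u) = u := by
  obtain ⟨k, s⟩ := u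
  simp [br]

theorem br_ne (u : N × Bool) : br u ≠ u := by
  obtain ⟨k, s⟩ := u
  intro h
  have := congrArg Prod.snd h
  simp [br] at this

theorem br_fst (u : N × Bool) : (br u).1 = u.1 := rfl

theorem eq_or_br {u v : N × Bool} (h : v.1 = u.1) : v = u ∨ v = br u := by
  obtain ⟨k, s⟩ := u
  obtain ⟨l, t⟩ := v
  simp only at h
  subst h
  cases s <;> cases t <;> simp [br]

/-- the exchange of the two slots of all cells -/
def brE (N : Type) : (N × Bool) ≃ (N × Bool) := ⟨br, br, br_br, br_br⟩

theorem brE_apply (u : N × Bool) : brE N u = br u := rfl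

theorem sum_br {X : Type*} [AddCommMonoid X] [Fintype N] (f : N × Bool → X) :
    ∑ u, f (br u) = ∑ u, f u := Equiv.sum_comp (brE N) f

end slots

section

variable {N : Type} [Fintype N] [DecidableEq N] {n : ℕ} {β : Type} [DecidableEq β] (Γ : Shape n β)
  {Λ : Type*} [AddCommGroup Λ] [Module ℂ Λ]

/-- the pairs are cells: the groups of the two indices are mates -/
def Ok (a : N × Bool → Fin n) : Prop := ∀ u, Γ.grp (a (br u)) = Γ.mate (Γ.grp (a u))

/-- the cells are different, and no diagonal cells for the alternating matrices -/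
def Nd (a : N × Bool → Fin n) : Prop :=
  (∀ u v, a v = a u → a (br v) = a (br u) → v.1 = u.1) ∧
    ∀ u, Γ.alt (Γ.grp (a u)) = true → a u ≠ a (br u)

/-- the cells are an order ideal -/
def Idl (a : N × Bool → Fin n) : Prop :=
  ∀ u, ∀ p < a u, Γ.grp p = Γ.grp (a u) → (p = a (br u) → Γ.alt (Γ.grp p) = false) →
    ∃ v, a v = p ∧ a (br v) = a (br u)

variable {Γ}

omit [Fintype N] [DecidableEq N] [DecidableEq β] in
theorem Ok.sg_br {a : N × Bool → Fin n} (h : Ok Γ a) (u : N × Bool) :
    Γ.sg (Γ.grp (a (br u))) = Γ.sg (Γ.grp (a u)) := by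
  rw [h u, Γ.sg_mate]

omit [Fintype N] [DecidableEq N] [DecidableEq β] in
theorem Ok.sg_eq {a : N × Bool → Fin n} (h : Ok Γ a) {u v : N × Bool} (huv : v.1 = u.1) :
    Γ.sg (Γ.grp (a v)) = Γ.sg (Γ.grp (a u)) := by
  rcases eq_or_br huv with rfl | rfl
  · rfl
  · exact h.sg_br u

omit [Fintype N] [DecidableEq N] [DecidableEq β] in
theorem Ok.of_grp {a a' : N × Bool → Fin n} (h : Ok Γ a) (h' : ∀ u, Γ.grp (a' u) = Γ.grp (a u)) :
    Ok Γ a' := fun u => by rw [h', h', h u]

omit [Fintype N] [DecidableEq N] [DecidableEq β] in
theorem Ok.mate_iff {a : N × Bool → Fin n} (h : Ok Γ a) (u v : N × Bool) :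
    Γ.grp (a (br u)) = Γ.grp (a (br v)) ↔ Γ.grp (a u) = Γ.grp (a v) := by
  rw [h u, h v]
  exact ⟨Γ.mate_inj, fun h => by rw [h]⟩

omit [Fintype N] [DecidableEq β] in
theorem grp_swap {a : N × Bool → Fin n} {u v : N × Bool} (hb : Γ.grp (a u) = Γ.grp (a v))
    (w : N × Bool) : Γ.grp ((a ∘ Equiv.swap u v) w) = Γ.grp (a w) := by
  rw [comp_apply]
  by_cases h1 : w = u
  · subst h1
    rw [Equiv.swap_apply_left, hb]
  · by_cases h2 : w = v
    · subst h2
      rw [Equiv.swap_apply_right, hb]
    · rw [Equiv.swap_apply_of_ne_of_ne h1 h2]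

variable (Γ) in
/-- the two symmetries of the exterior products -/
structure Sym (B : (N × Bool → Fin n) → Λ) : Prop where
  slot : ∀ a, Ok Γ a → ∀ l : N,
    B (a ∘ Equiv.swap (l, false) (l, true)) = Γ.sg (Γ.grp (a (l, false))) • B a
  cell : ∀ a (k l : N), k ≠ l → B (a ∘ Equiv.prodCongr (Equiv.swap k l) (Equiv.refl Bool)) = -B a

theorem Sym.slot' {B : (N × Bool → Fin n) → Λ} (hB : Sym Γ B) {a : N × Bool → Fin n} (ha : Ok Γ a)
    (u : N × Bool) : B (a ∘ Equiv.swap u (br u)) = Γ.sg (Γ.grp (a u)) • B a := by
  obtain ⟨l, t⟩ := u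
  cases t
  · exact hB.slot a ha l
  · have h1 := hB.slot a ha l
    have h2 : (br (l, true) : N × Bool) = (l, false) := rfl
    rw [h2, Equiv.swap_comm, h1]
    congr 1
    exact ha.sg_eq rfl

theorem Sym.pair {B : (N × Bool → Fin n) → Λ} (hB : Sym Γ B) {a : N × Bool → Fin n} (ha : Ok Γ a)
    {u v : N × Bool} (huv : u.1 ≠ v.1) (hb : Γ.grp (a u) = Γ.grp (a v)) :
    B (a ∘ Equiv.swap (br u) (br v)) = -B (a ∘ Equiv.swap u v) := by
  have hg := grp_swap hb
  have ha' : Ok Γ (a ∘ Equiv.swap u v) := ha.of_grp hg
  obtain ⟨k, s⟩ := u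
  obtain ⟨l, t⟩ := v
  simp only at huv
  by_cases hst : t = s
  · subst hst
    rw [← hB.cell _ k l huv]
    congr 1
    funext w
    obtain ⟨j, r⟩ := w
    simp only [comp_apply, Equiv.prodCongr_apply, Prod.map_apply, Equiv.refl_apply, br]
    by_cases hj : j = k
    · subst hj
      rw [Equiv.swap_apply_left]
      by_cases hr : r = t
      · subst hr
        rw [Equiv.swap_apply_right, Equiv.swap_apply_of_ne_of_ne (by simp) (by simp [huv])]
      · have hr' : r = !t := by cases r <;> cases t <;> simp_all
        subst hr'
        rw [Equiv.swap_apply_left, Equiv.swap_apply_of_ne_of_ne (by simp [Ne.symm huv]) (by simp)]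
    · by_cases hj' : j = l
      · subst hj'
        rw [Equiv.swap_apply_right]
        by_cases hr : r = t
        · subst hr
          rw [Equiv.swap_apply_left, Equiv.swap_apply_of_ne_of_ne (by simp [Ne.symm huv]) (by simp)]
        · have hr' : r = !t := by cases r <;> cases t <;> simp_all
          subst hr'
          rw [Equiv.swap_apply_right, Equiv.swap_apply_of_ne_of_ne (by simp) (by simp [huv])]
      · rw [Equiv.swap_apply_of_ne_of_ne hj hj', Equiv.swap_apply_of_ne_of_ne (by simp [hj])
          (by simp [hj']), Equiv.swap_apply_of_ne_of_ne (by simp [hj]) (by simp [hj'])]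
  · have hst' : t = !s := by cases s <;> cases t <;> simp_all
    subst hst'
    set a' := a ∘ Equiv.swap (k, s) (l, !s) with ha'd
    have e1 : a ∘ Equiv.swap (br (k, s)) (br (l, !s)) =
        ((a' ∘ Equiv.swap (l, false) (l, true)) ∘ Equiv.swap (k, false) (k, true)) ∘
          Equiv.prodCongr (Equiv.swap k l) (Equiv.refl Bool) := by
      funext w
      obtain ⟨j, r⟩ := w
      simp only [ha'd, comp_apply, Equiv.prodCongr_apply, Prod.map_apply, Equiv.refl_apply, br,
        Bool.not_not]
      by_cases hj : j = k
      · subst hj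
        rw [Equiv.swap_apply_left]
        rw [Equiv.swap_apply_of_ne_of_ne (a := (j, false)) (b := (j, true)) (by simp [Ne.symm huv])
          (by simp [Ne.symm huv])]
        have h1 : Equiv.swap ((l, false) : N × Bool) (l, true) (l, r) = (l, !r) := by
          cases r
          · exact Equiv.swap_apply_left _ _
          · exact Equiv.swap_apply_right _ _
        rw [h1]
        by_cases hr : r = s
        · subst hr
          rw [Equiv.swap_apply_right, Equiv.swap_apply_of_ne_of_ne (by simp) (by simp [huv])]
        · have hr' : r = !s := by cases r <;> cases s <;> simp_all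
          subst hr'
          rw [Equiv.swap_apply_left, Bool.not_not,
            Equiv.swap_apply_of_ne_of_ne (by simp [Ne.symm huv]) (by simp)]
      · by_cases hj' : j = l
        · subst hj'
          rw [Equiv.swap_apply_right]
          have h1 : Equiv.swap ((k, false) : N × Bool) (k, true) (k, r) = (k, !r) := by
            cases r
            · exact Equiv.swap_apply_left _ _
            · exact Equiv.swap_apply_right _ _
          rw [h1, Equiv.swap_apply_of_ne_of_ne (a := (j, false)) (b := (j, true)) (by simp [huv])
            (by simp [huv])]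
          by_cases hr : r = s
          · subst hr
            rw [Equiv.swap_apply_right, Equiv.swap_apply_of_ne_of_ne (by simp) (by simp [huv])]
          · have hr' : r = !s := by cases r <;> cases s <;> simp_all
            subst hr'
            rw [Equiv.swap_apply_of_ne_of_ne (by simp [Ne.symm huv]) (by simp), Bool.not_not,
              Equiv.swap_apply_left]
        · rw [Equiv.swap_apply_of_ne_of_ne hj hj', Equiv.swap_apply_of_ne_of_ne (by simp [hj])
            (by simp [hj']), Equiv.swap_apply_of_ne_of_ne (a := (k, false)) (by simp [hj])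
            (by simp [hj]), Equiv.swap_apply_of_ne_of_ne (a := (l, false)) (by simp [hj'])
            (by simp [hj']), Equiv.swap_apply_of_ne_of_ne (by simp [hj]) (by simp [hj'])]
    have hgl : ∀ w, Γ.grp ((a' ∘ Equiv.swap (l, false) (l, true)) w) =
        Γ.grp (a' (Equiv.swap (l, false) (l, true) w)) := fun w => rfl
    have ha2 : Ok Γ (a' ∘ Equiv.swap (l, false) (l, true)) := by
      intro w
      have h1 : Equiv.swap ((l, false) : N × Bool) (l, true) (br w) =
          br (Equiv.swap (l, false) (l, true) w) := by
        obtain ⟨j, r⟩ := w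
        by_cases hj : j = l
        · subst hj
          cases r
          · show Equiv.swap ((j, false) : N × Bool) (j, true) (j, true) = _
            rw [Equiv.swap_apply_right, Equiv.swap_apply_left]
            rfl
          · show Equiv.swap ((j, false) : N × Bool) (j, true) (j, false) = _
            rw [Equiv.swap_apply_right, Equiv.swap_apply_left]
            rfl
        · rw [Equiv.swap_apply_of_ne_of_ne (by simp [br, hj]) (by simp [br, hj]),
            Equiv.swap_apply_of_ne_of_ne (by simp [hj]) (by simp [hj])]
      rw [comp_apply, comp_apply, h1]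
      exact ha' _
    rw [e1, hB.cell _ k l huv, hB.slot _ ha2 k, hB.slot _ ha' l, smul_smul]
    have e2 : Γ.sg (Γ.grp ((a' ∘ Equiv.swap (l, false) (l, true)) (k, false))) =
        Γ.sg (Γ.grp (a' (l, false))) := by
      rw [comp_apply, Equiv.swap_apply_of_ne_of_ne (by simp [huv]) (by simp [huv])]
      rw [ha'.sg_eq (u := (k, s)) (v := (k, false)) rfl, ha'.sg_eq (u := (l, !s)) (v := (l, false)) rfl]
      rw [hg, hg, hb]
    rw [e2, Γ.sg_sq, one_smul]

end

end Pool.Agent.Run7.h817.SY
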