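import Mathlib
import Pool.Agent.Run7.h817.SY.S1

set_option autoImplicit false
set_option linter.unusedSectionVars false
set_option linter.unusedVariables false

/-!
# Generic, symmetric and alternating matrices, part 2: the diagonal identity and the core
-/

namespace Pool.Agent.Run7.h817.SY

open Finset Function Pool.Agent.Run7.h490.MX

section

variable {N : Type} [Fintype N] [DecidableEq N] {n : ℕ} {β : Type} [DecidableEq β] {Γ : Shape n β}
  {Λ : Type*} [AddCommGroup Λ] [Module ℂ Λ]

/-- the coefficients of the diagonal terms -/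
def gd (Γ : Shape n β) (a : N × Bool → Fin n) (u v : N × Bool) : ℤ :=
  (if v = br u ∧ Γ.grp (a v) = Γ.grp (a u) ∧ a v ≠ a u then Γ.sg (Γ.grp (a u)) else 0) -
    (if u.1 ≠ v.1 ∧ a v = a u then 1 else 0)

theorem swap_eq_self {a : N × Bool → Fin n} {u v : N × Bool} (h : a u = a v) :
    a ∘ Equiv.swap u v = a := by
  funext w
  rw [comp_apply]
  by_cases h1 : w = u
  · subst h1
    rw [Equiv.swap_apply_left, h]
  · by_cases h2 : w = v
    · subst h2
      rw [Equiv.swap_apply_right, h]
    · rw [Equiv.swap_apply_of_ne_of_ne h1 h2]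

theorem point {B : (N × Bool → Fin n) → Λ} (hB : Sym Γ B) {a : N × Bool → Fin n} (ha : Ok Γ a)
    (u v : N × Bool) :
    (if a v ≠ a u ∧ Γ.grp (a v) = Γ.grp (a u) then B (a ∘ Equiv.swap u v) else 0) =
      (if u.1 ≠ v.1 ∧ Γ.grp (a v) = Γ.grp (a u) then B (a ∘ Equiv.swap u v) else 0) +
        gd Γ a u v • B a := by
  unfold gd
  by_cases h1 : u.1 = v.1
  · rcases eq_or_br (u := u) (v := v) h1.symm with rfl | rfl
    · simp [Ne.symm (br_ne v)]
    · rw [hB.slot' ha u]
      by_cases h2 : Γ.grp (a (br u)) = Γ.grp (a u) ∧ a (br u) ≠ a u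
      · simp [h2.1, h2.2, h1]
      · have h3 : ¬ (a (br u) ≠ a u ∧ Γ.grp (a (br u)) = Γ.grp (a u)) := fun h => h2 ⟨h.2, h.1⟩
        rw [if_neg h3]
        simp [h2, h1]
  · have h2 : v ≠ br u := fun h => h1 (by rw [h, br_fst])
    by_cases h3 : a v = a u
    · simp [h1, h2, h3, swap_eq_self h3.symm]
    · simp [h1, h2, h3]

theorem zero_sum {B : (N × Bool → Fin n) → Λ} (hB : Sym Γ B) {a : N × Bool → Fin n}
    (ha : Ok Γ a) : ∑ u : N × Bool, ∑ v : N × Bool,
      (if u.1 ≠ v.1 ∧ Γ.grp (a v) = Γ.grp (a u) then B (a ∘ Equiv.swap u v) else 0) = 0 := by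
  set f : N × Bool → N × Bool → Λ := fun u v =>
    if u.1 ≠ v.1 ∧ Γ.grp (a v) = Γ.grp (a u) then B (a ∘ Equiv.swap u v) else 0 with hf
  have h1 : ∀ u v, f (br u) (br v) = -f u v := by
    intro u v
    simp only [hf, br_fst]
    by_cases h : u.1 ≠ v.1 ∧ Γ.grp (a v) = Γ.grp (a u)
    · rw [if_pos h, if_pos ⟨h.1, (ha.mate_iff v u).2 h.2⟩]
      exact hB.pair ha h.1 h.2.symm
    · rw [if_neg h, if_neg (fun h' => h ⟨h'.1, (ha.mate_iff v u).1 h'.2⟩), neg_zero]
  have h2 : ∑ u, ∑ v, f u v = -∑ u, ∑ v, f u v := by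
    conv_lhs => rw [← sum_br]
    rw [← Finset.sum_neg_distrib]
    refine Finset.sum_congr rfl fun u _ => ?_
    rw [← sum_br, ← Finset.sum_neg_distrib]
    exact Finset.sum_congr rfl fun v _ => h1 u v
  have h3 : (2 : ℂ) • ∑ u, ∑ v, f u v = 0 := by
    rw [two_smul]
    nth_rewrite 1 [h2]
    exact neg_add_cancel _
  exact (smul_eq_zero.1 h3).resolve_left two_ne_zero

/-- twice the sum of the off-diagonal terms is diagonal -/
theorem double {B : (N × Bool → Fin n) → Λ} (hB : Sym Γ B) {a : N × Bool → Fin n}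
    (ha : Ok Γ a) : (2 : ℤ) • ∑ u : N × Bool, ∑ v : N × Bool,
      (if a v < a u ∧ Γ.grp (a v) = Γ.grp (a u) then B (a ∘ Equiv.swap u v) else 0) =
        (∑ u : N × Bool, ∑ v : N × Bool, gd Γ a u v) • B a := by
  have h1 : ∑ u : N × Bool, ∑ v : N × Bool,
      (if a v < a u ∧ Γ.grp (a v) = Γ.grp (a u) then B (a ∘ Equiv.swap u v) else 0) =
      ∑ u : N × Bool, ∑ v : N × Bool,
      (if a u < a v ∧ Γ.grp (a v) = Γ.grp (a u) then B (a ∘ Equiv.swap u v) else 0) := by
    rw [Finset.sum_comm]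
    refine Finset.sum_congr rfl fun u _ => Finset.sum_congr rfl fun v _ => ?_
    rw [Equiv.swap_comm]
    simp only [eq_comm]
  have h2 : (2 : ℤ) • ∑ u : N × Bool, ∑ v : N × Bool,
      (if a v < a u ∧ Γ.grp (a v) = Γ.grp (a u) then B (a ∘ Equiv.swap u v) else 0) =
      ∑ u : N × Bool, ∑ v : N × Bool,
      (if a v ≠ a u ∧ Γ.grp (a v) = Γ.grp (a u) then B (a ∘ Equiv.swap u v) else 0) := by
    rw [two_zsmul]
    nth_rewrite 2 [h1]
    rw [← Finset.sum_add_distrib]
    refine Finset.sum_congr rfl fun u _ => ?_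
    rw [← Finset.sum_add_distrib]
    refine Finset.sum_congr rfl fun v _ => ?_
    rcases lt_trichotomy (a v) (a u) with h | h | h
    · simp [h, h.ne, not_lt.2 h.le]
    · simp [h]
    · simp [h, h.ne', not_lt.2 h.le]
  rw [h2, Finset.sum_congr rfl fun u _ => Finset.sum_congr rfl fun v _ => point hB ha u v]
  simp only [Finset.sum_add_distrib]
  rw [zero_sum hB ha, zero_add, Finset.sum_smul]
  refine Finset.sum_congr rfl fun u _ => ?_
  rw [Finset.sum_smul]

/-- the slots of the cell above the cell of `u` with the index `p` instead of `a u` -/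
def fib (a : N × Bool → Fin n) (u : N × Bool) (p : Fin n) : Finset (N × Bool) :=
  univ.filter fun v => a v = p ∧ a (br v) = a (br u)

/-- the multiplicity of this cell -/
def mu (Γ : Shape n β) (a : N × Bool → Fin n) (u : N × Bool) (p : Fin n) : ℕ :=
  if p = a (br u) then (if Γ.alt (Γ.grp p) then 0 else 2) else 1

theorem fib_le {a : N × Bool → Fin n} (hn : Nd Γ a) (u : N × Bool) (p : Fin n) :
    (fib a u p).card ≤ mu Γ a u p := by
  unfold mu
  by_cases h1 : p = a (br u)
  · rw [if_pos h1]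
    by_cases h2 : Γ.alt (Γ.grp p) = true
    · rw [if_pos h2]
      refine le_of_eq (Finset.card_eq_zero.2 (Finset.filter_eq_empty_iff.2 ?_))
      rintro v - ⟨h3, h4⟩
      exact hn.2 v (by rw [h3]; exact h2) (by rw [h3, h4, h1])
    · rw [if_neg h2]
      rcases Finset.eq_empty_or_nonempty (fib a u p) with h | ⟨v, hv⟩
      · rw [h]
        simp
      · have h3 : fib a u p ⊆ {v, br v} := by
          intro v' hv'
          simp only [fib, mem_filter, mem_univ, true_and] at hv hv'
          have h4 := hn.1 v v' (by rw [hv.1, hv'.1]) (by rw [hv.2, hv'.2])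
          rcases eq_or_br h4 with h5 | h5 <;> simp [h5]
        exact (Finset.card_le_card h3).trans Finset.card_le_two
  · rw [if_neg h1]
    rw [Finset.card_le_one]
    intro v hv v' hv'
    simp only [fib, mem_filter, mem_univ, true_and] at hv hv'
    have h4 := hn.1 v v' (by rw [hv.1, hv'.1]) (by rw [hv.2, hv'.2])
    rcases eq_or_br h4 with h5 | h5
    · exact h5.symm
    · exfalso
      rw [h5] at hv'
      exact h1 (hv'.1.symm.trans hv.2)

theorem mu_sum (a : N × Bool → Fin n) (u : N × Bool) :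
    ((∑ p ∈ rows Γ.grp (a u), mu Γ a u p : ℕ) : ℤ) = ((rows Γ.grp (a u)).card : ℤ) +
      if a (br u) < a u ∧ Γ.grp (a (br u)) = Γ.grp (a u) then Γ.sg (Γ.grp (a u)) else 0 := by
  push_cast
  have h1 : ∀ p ∈ rows Γ.grp (a u), ((mu Γ a u p : ℕ) : ℤ) =
      1 + if p = a (br u) then Γ.sg (Γ.grp (a u)) else 0 := by
    intro p hp
    simp only [rows, mem_filter, mem_univ, true_and] at hp
    unfold mu Shape.sg
    rw [hp.2]
    by_cases h : p = a (br u)
    · rw [if_pos h, if_pos h]
      split_ifs <;> norm_num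
    · rw [if_neg h, if_neg h]
      norm_num
  rw [Finset.sum_congr rfl h1, Finset.sum_add_distrib, Finset.sum_const, nsmul_eq_mul, mul_one,
    Finset.sum_ite_eq']
  congr 1
  simp only [rows, mem_filter, mem_univ, true_and]

theorem fib_sum (a : N × Bool → Fin n) (ha : Ok Γ a) (u : N × Bool) :
    ∑ p ∈ rows Γ.grp (a u), (fib a u p).card =
      (univ.filter fun v => u.1 ≠ v.1 ∧ a (br v) = a (br u) ∧ a v < a u).card := by
  rw [← Finset.card_biUnion]
  · congr 1
    ext v
    simp only [mem_biUnion, rows, fib, mem_filter, mem_univ, true_and]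
    constructor
    · rintro ⟨p, hp, rfl, h⟩
      refine ⟨fun h' => ?_, h, hp.1⟩
      rcases eq_or_br (u := u) (v := v) h'.symm with h5 | h5
      · rw [h5] at hp
        exact lt_irrefl _ hp.1
      · rw [h5] at hp h
        rw [br_br] at h
        rw [h] at hp
        exact lt_irrefl _ hp.1
    · rintro ⟨-, h, h'⟩
      exact ⟨a v, ⟨h', (ha.mate_iff v u).1 (by rw [h])⟩, rfl, h⟩
  · intro p _ p' _ hne
    rw [Function.onFun, Finset.disjoint_left]
    intro v hv hv'
    simp only [fib, mem_filter, mem_univ, true_and] at hv hv'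
    exact hne (hv.1.symm.trans hv'.1)

/-- the diagonal term -/
theorem gd_sum {a : N × Bool → Fin n} (ha : Ok Γ a) (hn : Nd Γ a) :
    2 * ∑ u : N × Bool, ((rows Γ.grp (a u)).card : ℤ) + ∑ u : N × Bool, ∑ v : N × Bool, gd Γ a u v =
      2 * ((∑ u : N × Bool, ∑ p ∈ rows Γ.grp (a u), (mu Γ a u p - (fib a u p).card) : ℕ) : ℤ) := by
  have h0 : ((∑ u : N × Bool, ∑ p ∈ rows Γ.grp (a u), (mu Γ a u p - (fib a u p).card) : ℕ) : ℤ) =
      ∑ u : N × Bool, (((∑ p ∈ rows Γ.grp (a u), mu Γ a u p : ℕ) : ℤ) -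
        ((∑ p ∈ rows Γ.grp (a u), (fib a u p).card : ℕ) : ℤ)) := by
    push_cast [Nat.cast_sub (fib_le hn _ _)]
    refine Finset.sum_congr rfl fun u _ => ?_
    rw [Finset.sum_sub_distrib]
  rw [h0]
  simp only [mu_sum, fib_sum a ha]
  rw [Finset.sum_sub_distrib, Finset.sum_add_distrib]
  -- the signs
  have h1 : ∑ u : N × Bool, ∑ v : N × Bool,
      (if v = br u ∧ Γ.grp (a v) = Γ.grp (a u) ∧ a v ≠ a u then Γ.sg (Γ.grp (a u)) else 0) =
      2 * ∑ u : N × Bool,
        if a (br u) < a u ∧ Γ.grp (a (br u)) = Γ.grp (a u) then Γ.sg (Γ.grp (a u)) else 0 := by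
    have h2 : ∑ u : N × Bool, (if a (br u) < a u ∧ Γ.grp (a (br u)) = Γ.grp (a u) then
        Γ.sg (Γ.grp (a u)) else 0) = ∑ u : N × Bool, if a u < a (br u) ∧
          Γ.grp (a (br u)) = Γ.grp (a u) then Γ.sg (Γ.grp (a u)) else 0 := by
      conv_lhs => rw [← sum_br]
      refine Finset.sum_congr rfl fun u _ => ?_
      rw [br_br, ha.sg_br]
      simp only [eq_comm]
    rw [two_mul]
    nth_rewrite 2 [h2]
    rw [← Finset.sum_add_distrib]
    refine Finset.sum_congr rfl fun u _ => ?_
    rw [Finset.sum_eq_single (br u)]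
    · rcases lt_trichotomy (a (br u)) (a u) with h | h | h
      · simp [h, h.ne, not_lt.2 h.le]
      · simp [h]
      · simp [h, h.ne', not_lt.2 h.le]
    · intro v _ hv
      rw [if_neg (fun h => hv h.1)]
    · intro h
      exact absurd (mem_univ _) h
  have h2 : ∑ u : N × Bool, ∑ v : N × Bool, (if u.1 ≠ v.1 ∧ a v = a u then (1 : ℤ) else 0) =
      2 * ∑ u : N × Bool,
        ((univ.filter fun v => u.1 ≠ v.1 ∧ a (br v) = a (br u) ∧ a v < a u).card : ℤ) := by
    have h3 : ∑ u : N × Bool, ∑ v : N × Bool, (if u.1 ≠ v.1 ∧ a v = a u then (1 : ℤ) else 0) =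
        ∑ u : N × Bool, ∑ v : N × Bool,
          if u.1 ≠ v.1 ∧ a (br v) = a (br u) then (1 : ℤ) else 0 := by
      rw [← sum_br]
      refine Finset.sum_congr rfl fun u _ => ?_
      rw [← sum_br]
      rfl
    have h4 : ∀ u v : N × Bool, (if u.1 ≠ v.1 ∧ a (br v) = a (br u) then (1 : ℤ) else 0) =
        (if u.1 ≠ v.1 ∧ a (br v) = a (br u) ∧ a v < a u then (1 : ℤ) else 0) +
          if v.1 ≠ u.1 ∧ a (br u) = a (br v) ∧ a u < a v then (1 : ℤ) else 0 := by
      intro u v
      by_cases h : u.1 ≠ v.1 ∧ a (br v) = a (br u)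
      · have h5 : a v ≠ a u := fun h' => h.1 (hn.1 u v h' h.2).symm
        rcases lt_or_gt_of_ne h5 with h6 | h6
        · simp [h.1, Ne.symm h.1, h.2, h6, not_lt.2 h6.le]
        · simp [h.1, Ne.symm h.1, h.2, h6, not_lt.2 h6.le]
      · rw [if_neg h, if_neg (fun h' => h ⟨h'.1, h'.2.1⟩),
          if_neg (fun h' => h ⟨Ne.symm h'.1, h'.2.1.symm⟩), add_zero]
    rw [h3]
    simp only [h4, Finset.sum_add_distrib]
    rw [two_mul]
    congr 1
    · refine Finset.sum_congr rfl fun u _ => ?_
      rw [Finset.card_filter]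
      push_cast
      rfl
    · rw [Finset.sum_comm]
      refine Finset.sum_congr rfl fun u _ => ?_
      rw [Finset.card_filter]
      push_cast
      rfl
  unfold gd
  simp only [Finset.sum_sub_distrib]
  rw [h1, h2]
  ring

/-- the sum of the indices -/
def hgt (a : N × Bool → Fin n) : ℕ := ∑ u, (a u : ℕ)

theorem hgt_lt (a : N × Bool → Fin n) (u : N × Bool) (p : Fin n) (hp : p < a u) :
    hgt (update a u p) < hgt a := by
  unfold hgt
  refine Finset.sum_lt_sum (fun l _ => ?_) ⟨u, mem_univ _, ?_⟩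
  · by_cases h : l = u
    · subst h
      rw [update_self]
      exact le_of_lt hp
    · rw [update_of_ne h]
  · rw [update_self]
    exact hp

/-- one step of the induction -/
theorem step (W : Submodule ℂ Λ) (B : (N × Bool → Fin n) → Λ)
    (hW : ∀ a, Ok Γ a → B a ∈ W → ∀ p p' : Fin n, p < p' → Γ.grp p = Γ.grp p' →
      ∑ u ∈ univ.filter (fun u => a u = p), B (update a u p') ∈ W)
    (a : N × Bool → Fin n) (ha : Ok Γ a)
    (ih : ∀ a', Ok Γ a' → hgt a' < hgt a → B a' ∈ W) (u : N × Bool) (p : Fin n) (hp : p < a u)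
    (hb : Γ.grp p = Γ.grp (a u)) :
    B a + ∑ v ∈ univ.filter (fun v => v ≠ u ∧ a v = p), B (a ∘ Equiv.swap u v) ∈ W := by
  have hg : ∀ v, Γ.grp (update a u p v) = Γ.grp (a v) := by
    intro v
    by_cases h : v = u
    · subst h
      rw [update_self, hb]
    · rw [update_of_ne h]
  have ha' : Ok Γ (update a u p) := ha.of_grp hg
  have h1 := hW _ ha' (ih _ ha' (hgt_lt a u p hp)) p (a u) hp hb
  have h2 : univ.filter (fun v => update a u p v = p) =
      insert u (univ.filter (fun v => v ≠ u ∧ a v = p)) := by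
    ext v
    simp only [mem_filter, mem_univ, true_and, mem_insert]
    by_cases h : v = u
    · subst h
      simp
    · simp [h]
  rw [h2, Finset.sum_insert (by simp)] at h1
  have h3 : update (update a u p) u (a u) = a := by
    rw [update_idem]
    exact update_eq_self _ _
  rw [h3] at h1
  convert h1 using 2
  refine Finset.sum_congr rfl fun v hv => ?_
  simp only [mem_filter, mem_univ, true_and] at hv
  congr 1
  funext w
  rw [comp_apply]
  by_cases hw : w = v
  · subst hw
    rw [Equiv.swap_apply_right, update_self]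
  · by_cases hw' : w = u
    · subst hw'
      rw [Equiv.swap_apply_left, update_of_ne hw, update_self, hv.2]
    · rw [Equiv.swap_apply_of_ne_of_ne hw' hw, update_of_ne hw, update_of_ne hw']

/-- **The core.** -/
theorem core (W : Submodule ℂ Λ) (B : (N × Bool → Fin n) → Λ) (hB : Sym Γ B)
    (hW : ∀ a, Ok Γ a → B a ∈ W → ∀ p p' : Fin n, p < p' → Γ.grp p = Γ.grp p' →
      ∑ u ∈ univ.filter (fun u => a u = p), B (update a u p') ∈ W)
    (hid : ∀ a, Ok Γ a → Nd Γ a → Idl Γ a → B a ∈ W) : ∀ a, Ok Γ a → B a ∈ W := by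
  have main : ∀ (k : ℕ) (a : N × Bool → Fin n), hgt a = k → Ok Γ a → B a ∈ W := by
    intro k
    induction k using Nat.strong_induction_on with
    | _ k ih =>
    intro a hk ha
    by_cases hn : Nd Γ a
    swap
    · -- the exterior product is zero
      have hz : (2 : ℂ) • B a = 0 := by
        unfold Nd at hn
        rw [not_and_or] at hn
        rcases hn with hn | hn
        · push Not at hn
          obtain ⟨u, v, h1, h2, h3⟩ := hn
          -- the cells of `u` and `v` are equal
          have h4 := hB.pair ha (Ne.symm h3) (by rw [h1])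
          rw [swap_eq_self h1.symm, swap_eq_self h2.symm] at h4
          rw [two_smul]
          nth_rewrite 1 [h4]
          exact neg_add_cancel _
        · push Not at hn
          obtain ⟨u, h1, h2⟩ := hn
          have h3 := hB.slot' ha u
          rw [swap_eq_self h2] at h3
          unfold Shape.sg at h3
          rw [if_pos h1, neg_one_zsmul] at h3
          rw [two_smul]
          nth_rewrite 1 [h3]
          exact neg_add_cancel _
      rw [(smul_eq_zero.1 hz).resolve_left two_ne_zero]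
      exact zero_mem _
    by_cases hI : Idl Γ a
    · exact hid a ha hn hI
    have ih' : ∀ a', Ok Γ a' → hgt a' < hgt a → B a' ∈ W := fun a' ha' h =>
      ih (hgt a') (hk ▸ h) a' rfl ha'
    have hR : ∑ u, ∑ p ∈ rows Γ.grp (a u),
        (B a + ∑ v ∈ univ.filter (fun v => v ≠ u ∧ a v = p), B (a ∘ Equiv.swap u v)) ∈ W := by
      refine Submodule.sum_mem _ fun u _ => Submodule.sum_mem _ fun p hp => ?_
      simp only [rows, mem_filter, mem_univ, true_and] at hp
      exact step W B hW a ha ih' u p hp.1 hp.2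
    have eR : ∑ u, ∑ p ∈ rows Γ.grp (a u),
        (B a + ∑ v ∈ univ.filter (fun v => v ≠ u ∧ a v = p), B (a ∘ Equiv.swap u v)) =
        (∑ u, ((rows Γ.grp (a u)).card : ℤ)) • B a + ∑ u, ∑ v,
          (if a v < a u ∧ Γ.grp (a v) = Γ.grp (a u) then B (a ∘ Equiv.swap u v) else 0) := by
      rw [Finset.sum_smul, ← Finset.sum_add_distrib]
      refine Finset.sum_congr rfl fun u _ => ?_
      rw [Finset.sum_add_distrib, regroup Γ.grp a u (fun v => B (a ∘ Equiv.swap u v)),
        Finset.sum_const, natCast_zsmul, Finset.sum_filter]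
    rw [eR] at hR
    have h1 : (2 : ℤ) • ((∑ u, ((rows Γ.grp (a u)).card : ℤ)) • B a + ∑ u, ∑ v,
          (if a v < a u ∧ Γ.grp (a v) = Γ.grp (a u) then B (a ∘ Equiv.swap u v) else 0)) ∈ W :=
      W.toAddSubgroup.zsmul_mem hR 2
    rw [smul_add, double hB ha, smul_smul, ← add_smul, gd_sum ha hn] at h1
    set κ := ∑ u : N × Bool, ∑ p ∈ rows Γ.grp (a u), (mu Γ a u p - (fib a u p).card) with hκ
    have h2 : κ ≠ 0 := by
      intro h0
      apply hI
      intro u p hp hb halt
      rw [hκ, Finset.sum_eq_zero_iff] at h0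
      have h3 := h0 u (mem_univ _)
      rw [Finset.sum_eq_zero_iff] at h3
      have h4 := h3 p (by
        simp only [rows, mem_filter, mem_univ, true_and]
        exact ⟨hp, hb⟩)
      have h5 : 1 ≤ mu Γ a u p := by
        unfold mu
        by_cases h : p = a (br u)
        · rw [if_pos h, halt h]
          simp
        · rw [if_neg h]
      have h6 : 0 < (fib a u p).card := by omega
      obtain ⟨v, hv⟩ := Finset.card_pos.1 h6
      simp only [fib, mem_filter, mem_univ, true_and] at hv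
      exact ⟨v, hv.1, hv.2⟩
    have h3 : ((2 * (κ : ℤ) : ℤ) : ℂ) • B a ∈ W := by
      rw [Int.cast_smul_eq_zsmul]
      exact h1
    refine (Submodule.smul_mem_iff W ?_).1 h3
    exact_mod_cast mul_ne_zero two_ne_zero (Nat.cast_ne_zero.2 h2)
  exact fun a ha => main _ a rfl ha

end

end Pool.Agent.Run7.h817.SY
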