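import Mathlib
import Pool.Agent.Run7.h817.SY.S2
import Pool.Agent.Run7.h490.MX2

set_option autoImplicit false
set_option linter.unusedSectionVars false
set_option linter.unusedVariables false

/-!
# Generic, symmetric and alternating matrices, part 3: the span of the frames
-/

namespace Pool.Agent.Run7.h817.SY

open Finset Function Pool.Agent.Run7.h490.MX

section multi

variable {Λ : Type*} [AddCommGroup Λ] [Module ℂ Λ] {V : Type*} [AddCommGroup V] [Module ℂ V]
  {U : Type} [Fintype U] [DecidableEq U]

/-- the linear coefficient of a multilinear map -/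
theorem lin_coeff' (W : Submodule ℂ Λ) (P : MultilinearMap ℂ (fun _ : U => V) Λ) (u u' : U → V)
    (h : ∀ t : ℝ, P (u + (t : ℂ) • u') ∈ W) : ∑ l, P (update u l (u' l)) ∈ W := by
  set a : ℕ → Λ := fun k => ∑ s ∈ univ.filter (fun s : Finset U => sᶜ.card = k),
    P (s.piecewise u u') with ha
  have h1 : ∀ t : ℝ, P (u + (t : ℂ) • u') =
      ∑ k ∈ Finset.range (Fintype.card U + 1), ((t : ℂ) ^ k) • a k := by
    intro t
    rw [P.map_add_univ]
    have h2 : ∀ s : Finset U, P (s.piecewise u ((t : ℂ) • u')) =
        ((t : ℂ) ^ sᶜ.card) • P (s.piecewise u u') := by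
      intro s
      have h3 : s.piecewise u ((t : ℂ) • u') =
          fun l => (if l ∈ s then (1 : ℂ) else (t : ℂ)) • s.piecewise u u' l := by
        funext l
        by_cases hl : l ∈ s
        · simp [hl]
        · simp [hl]
      rw [h3, P.map_smul_univ]
      congr 1
      rw [Finset.prod_ite]
      simp only [Finset.prod_const_one, Finset.prod_const, one_mul]
      congr 1
      congr 1
      ext l
      simp
    rw [Finset.sum_congr rfl fun s _ => h2 s]
    rw [← Finset.sum_fiberwise_of_maps_to (s := univ) (t := Finset.range (Fintype.card U + 1))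
      (g := fun s : Finset U => sᶜ.card) (fun s _ => by
        rw [Finset.mem_range, Nat.lt_succ_iff]
        exact Finset.card_le_univ _)]
    refine Finset.sum_congr rfl fun k _ => ?_
    rw [ha, Finset.smul_sum]
    refine Finset.sum_congr rfl fun s hs => ?_
    rw [(Finset.mem_filter.1 hs).2]
  have hN : 1 < Fintype.card U + 1 ∨ Fintype.card U = 0 := by omega
  rcases hN with hN | hN
  · have h4 := coeff_mem W _ a (fun t => by rw [← h1 t]; exact h t) 1 hN
    have h5 : a 1 = ∑ l, P (update u l (u' l)) := by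
      rw [ha]
      symm
      refine Finset.sum_bij (fun l _ => ({l} : Finset U)ᶜ) ?_ ?_ ?_ ?_
      · intro l _
        rw [Finset.mem_filter, compl_compl]
        exact ⟨mem_univ _, Finset.card_singleton l⟩
      · intro l _ l' _ h
        exact Finset.singleton_injective (compl_injective h)
      · intro s hs
        obtain ⟨l, hl⟩ := Finset.card_eq_one.1 (Finset.mem_filter.1 hs).2
        exact ⟨l, mem_univ _, by rw [← hl, compl_compl]⟩
      · intro l _
        congr 1
        funext t
        by_cases h : t = l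
        · subst h
          rw [update_self, Finset.piecewise_eq_of_notMem _ _ _ (by simp)]
        · rw [update_of_ne h, Finset.piecewise_eq_of_mem _ _ _ (by simp [h])]
    rw [← h5]
    exact h4
  · have : IsEmpty U := Fintype.card_eq_zero_iff.1 hN
    rw [Finset.univ_eq_empty, Finset.sum_empty]
    exact W.zero_mem

theorem rot_close1' (W : Submodule ℂ Λ) (P : MultilinearMap ℂ (fun _ : U => V) Λ) (u x : U → V)
    (S S' : U → Prop) [DecidablePred S] [DecidablePred S'] (hS : ∀ l, S l → ¬ S' l) (ζ : ℂ)
    (h : ∀ s t : ℝ, s * s * (1 + t * t) = 1 →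
      P (fun l => if S l then (s : ℂ) • (u l + ((t : ℂ) * ζ) • x l) else
        if S' l then (s : ℂ) • (u l - ((t : ℂ) * starRingEnd ℂ ζ) • x l) else u l) ∈ W) :
    ζ • (∑ l ∈ univ.filter S, P (update u l (x l))) -
      starRingEnd ℂ ζ • (∑ l ∈ univ.filter S', P (update u l (x l))) ∈ W := by
  set u' : U → V := fun l => if S l then ζ • x l else if S' l then -(starRingEnd ℂ ζ • x l) else 0
    with hu'
  have h1 : ∀ t : ℝ, P (u + (t : ℂ) • u') ∈ W := by
    intro t
    have hpos : 0 < 1 + t * t := by nlinarith [mul_self_nonneg t]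
    obtain ⟨s, hs, hs0⟩ : ∃ s : ℝ, s * s * (1 + t * t) = 1 ∧ s ≠ 0 := by
      refine ⟨(Real.sqrt (1 + t * t))⁻¹, ?_, ?_⟩
      · rw [← mul_inv, Real.mul_self_sqrt hpos.le, inv_mul_cancel₀ hpos.ne']
      · exact inv_ne_zero (Real.sqrt_pos.2 hpos).ne'
    have h2 := h s t hs
    have h3 : (fun l => if S l then (s : ℂ) • (u l + ((t : ℂ) * ζ) • x l) else
        if S' l then (s : ℂ) • (u l - ((t : ℂ) * starRingEnd ℂ ζ) • x l) else u l) =
        fun l => (if S l ∨ S' l then (s : ℂ) else 1) • (u + (t : ℂ) • u') l := by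
      funext l
      simp only [Pi.add_apply, Pi.smul_apply, hu']
      by_cases h4 : S l
      · simp only [h4, if_true, true_or]
        rw [smul_smul]
      · by_cases h5 : S' l
        · simp only [h4, h5, if_true, if_false, or_true]
          rw [smul_neg, smul_smul, sub_eq_add_neg]
        · simp only [h4, h5, if_false, or_self, smul_zero, add_zero, one_smul]
    rw [h3, P.map_smul_univ] at h2
    refine (Submodule.smul_mem_iff W ?_).1 h2
    rw [Finset.prod_ne_zero_iff]
    intro l _
    split_ifs
    · exact_mod_cast hs0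
    · exact one_ne_zero
  have h2 := lin_coeff' W P u u' h1
  have h3 : ∑ l, P (update u l (u' l)) = ζ • (∑ l ∈ univ.filter S, P (update u l (x l))) -
      starRingEnd ℂ ζ • (∑ l ∈ univ.filter S', P (update u l (x l))) := by
    rw [Finset.smul_sum, Finset.smul_sum, Finset.sum_filter, Finset.sum_filter,
      ← Finset.sum_sub_distrib]
    refine Finset.sum_congr rfl fun l _ => ?_
    simp only [hu']
    by_cases h4 : S l
    · rw [if_pos h4, if_pos h4, if_neg (hS l h4), P.map_update_smul, sub_zero]
    · by_cases h5 : S' l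
      · rw [if_neg h4, if_pos h5, if_neg h4, if_pos h5, ← neg_smul, P.map_update_smul, neg_smul,
          zero_sub]
      · rw [if_neg h4, if_neg h5, if_neg h4, if_neg h5, sub_zero]
        exact P.map_update_zero _ _
  rw [← h3]
  exact h2

theorem rot_close' (W : Submodule ℂ Λ) (P : MultilinearMap ℂ (fun _ : U => V) Λ) (u x : U → V)
    (S S' : U → Prop) [DecidablePred S] [DecidablePred S'] (hS : ∀ l, S l → ¬ S' l)
    (h : ∀ (s t : ℝ) (ζ : ℂ), s * s * (1 + t * t) = 1 → ζ * starRingEnd ℂ ζ = 1 →
      P (fun l => if S l then (s : ℂ) • (u l + ((t : ℂ) * ζ) • x l) else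
        if S' l then (s : ℂ) • (u l - ((t : ℂ) * starRingEnd ℂ ζ) • x l) else u l) ∈ W) :
    ∑ l ∈ univ.filter S, P (update u l (x l)) ∈ W := by
  have h1 := rot_close1' W P u x S S' hS 1 (fun s t hs => h s t 1 hs (by simp))
  have h2 := rot_close1' W P u x S S' hS Complex.I (fun s t hs => h s t Complex.I hs (by simp))
  rw [map_one, one_smul, one_smul] at h1
  rw [Complex.conj_I] at h2
  have h3 := W.sub_mem h1 (W.smul_mem Complex.I h2)
  have h4 : ∑ l ∈ univ.filter S, P (update u l (x l)) - ∑ l ∈ univ.filter S', P (update u l (x l)) -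
      Complex.I • (Complex.I • ∑ l ∈ univ.filter S, P (update u l (x l)) -
        -Complex.I • ∑ l ∈ univ.filter S', P (update u l (x l))) =
      (2 : ℂ) • ∑ l ∈ univ.filter S, P (update u l (x l)) := by
    rw [smul_sub, smul_smul, smul_smul, mul_neg, Complex.I_mul_I]
    module
  rw [h4] at h3
  exact (Submodule.smul_mem_iff W two_ne_zero).1 h3

end multi

section frames

open scoped Kronecker

variable {n : ℕ} {β : Type} [DecidableEq β] (Γ : Shape n β)

/-- the tensor product of two vectors -/
def tn (x y : Fin n → ℂ) : Fin n × Fin n → ℂ := fun w => x w.1 * y w.2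

/-- the symmetric or alternating product of two vectors -/
def pr (η : ℤ) (x y : Fin n → ℂ) : Fin n × Fin n → ℂ := tn x y + η • tn y x

theorem pr_apply (η : ℤ) (x y : Fin n → ℂ) (w : Fin n × Fin n) :
    pr η x y w = x w.1 * y w.2 + (η : ℂ) * (y w.1 * x w.2) := by
  simp [pr, tn]

/-- the map of the tensors given by a matrix -/
noncomputable def TT (g : Matrix (Fin n) (Fin n) ℂ) :
    (Fin n × Fin n → ℂ) →ₗ[ℂ] (Fin n × Fin n → ℂ) := Matrix.mulVecLin (g ⊗ₖ g)

theorem TT_tn (g : Matrix (Fin n) (Fin n) ℂ) (x y : Fin n → ℂ) :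
    TT g (tn x y) = tn (g.mulVec x) (g.mulVec y) := by
  funext w
  rw [TT, Matrix.mulVecLin_apply]
  simp only [Matrix.mulVec, dotProduct, tn, Matrix.kroneckerMap_apply]
  rw [Finset.sum_mul_sum, Fintype.sum_prod_type]
  refine Finset.sum_congr rfl fun p _ => Finset.sum_congr rfl fun q _ => ?_
  ring

theorem TT_pr (g : Matrix (Fin n) (Fin n) ℂ) (η : ℤ) (x y : Fin n → ℂ) :
    TT g (pr η x y) = pr η (g.mulVec x) (g.mulVec y) := by
  rw [pr, map_add, map_zsmul, TT_tn, TT_tn, pr]

theorem TT_comp (g g' : Matrix (Fin n) (Fin n) ℂ) : TT g ∘ₗ TT g' = TT (g * g') := by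
  rw [TT, TT, TT, ← Matrix.mulVecLin_mul, Matrix.mul_kronecker_mul]

/-- the basis vector -/
def ee (p : Fin n) : Fin n → ℂ := Pi.single p 1

/-- the vector of a slot function -/
def cv (η : ℤ) {i : ℕ} (x : Fin i × Bool → Fin n → ℂ) (l : Fin i) : Fin n × Fin n → ℂ :=
  pr η (x (l, false)) (x (l, true))

theorem tn_add_left (x x' y : Fin n → ℂ) : tn (x + x') y = tn x y + tn x' y := by
  funext w
  simp [tn, add_mul]

theorem tn_add_right (x y y' : Fin n → ℂ) : tn x (y + y') = tn x y + tn x y' := by
  funext w
  simp [tn, mul_add]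

theorem tn_smul_left (a : ℂ) (x y : Fin n → ℂ) : tn (a • x) y = a • tn x y := by
  funext w
  simp [tn, mul_assoc]

theorem tn_smul_right (a : ℂ) (x y : Fin n → ℂ) : tn x (a • y) = a • tn x y := by
  funext w
  simp [tn]
  ring

/-- the exterior product of the symmetric or alternating products, as a multilinear map of all
slots -/
noncomputable def PM {i : ℕ} (η : Fin i → ℤ) : MultilinearMap ℂ (fun _ : Fin i × Bool => Fin n → ℂ)
    (ExteriorAlgebra ℂ (Fin n × Fin n → ℂ)) where
  toFun x := ExteriorAlgebra.ιMulti ℂ i fun l => cv (η l) x l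
  map_update_add' := by
    intro _ x u y y'
    obtain ⟨k, s⟩ := u
    have hdec : ‹DecidableEq (Fin i × Bool)› = instDecidableEqProd := Subsingleton.elim _ _
    subst hdec
    have h1 : ∀ z : Fin n → ℂ, (fun l => cv (η l) (update x (k, s) z) l) =
        update (fun l => cv (η l) x l) k (cv (η k) (update x (k, s) z) k) := by
      intro z
      funext l
      by_cases h : l = k
      · subst h
        rw [update_self]
      · rw [update_of_ne h]
        unfold cv
        rw [update_of_ne (by simp [h]), update_of_ne (by simp [h])]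
    rw [h1, h1, h1, ← AlternatingMap.map_update_add]
    congr 2
    unfold cv pr
    cases s
    · simp only [update_self, update_of_ne (show ((k, true) : Fin i × Bool) ≠ (k, false) by simp)]
      rw [tn_add_left, tn_add_right, smul_add]
      abel
    · simp only [update_self, update_of_ne (show ((k, false) : Fin i × Bool) ≠ (k, true) by simp)]
      rw [tn_add_left, tn_add_right, smul_add]
      abel
  map_update_smul' := by
    intro _ x u c y
    obtain ⟨k, s⟩ := u
    have hdec : ‹DecidableEq (Fin i × Bool)› = instDecidableEqProd := Subsingleton.elim _ _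
    subst hdec
    have h1 : ∀ z : Fin n → ℂ, (fun l => cv (η l) (update x (k, s) z) l) =
        update (fun l => cv (η l) x l) k (cv (η k) (update x (k, s) z) k) := by
      intro z
      funext l
      by_cases h : l = k
      · subst h
        rw [update_self]
      · rw [update_of_ne h]
        unfold cv
        rw [update_of_ne (by simp [h]), update_of_ne (by simp [h])]
    rw [h1, h1, ← AlternatingMap.map_update_smul]
    congr 2
    unfold cv pr
    cases s
    · simp only [update_self, update_of_ne (show ((k, true) : Fin i × Bool) ≠ (k, false) by simp)]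
      rw [tn_smul_left, tn_smul_right, smul_add, smul_comm c]
    · simp only [update_self, update_of_ne (show ((k, false) : Fin i × Bool) ≠ (k, true) by simp)]
      rw [tn_smul_left, tn_smul_right, smul_add, smul_comm c]

theorem PM_apply {i : ℕ} (η : Fin i → ℤ) (x : Fin i × Bool → Fin n → ℂ) :
    PM η x = ExteriorAlgebra.ιMulti ℂ i fun l => cv (η l) x l := rfl

/-- the signs of the cells -/
def sl {i : ℕ} (a : Fin i × Bool → Fin n) (l : Fin i) : ℤ := Γ.sg (Γ.grp (a (l, false)))

/-- the exterior product of the vectors of the cells -/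
noncomputable def BB {i : ℕ} (a : Fin i × Bool → Fin n) : ExteriorAlgebra ℂ (Fin n × Fin n → ℂ) :=
  PM (sl Γ a) fun u => ee (a u)

theorem map_BB (g : Matrix (Fin n) (Fin n) ℂ) {i : ℕ} (a : Fin i × Bool → Fin n) :
    ExteriorAlgebra.map (TT g) (BB Γ a) = PM (sl Γ a) fun u => g.mulVec (ee (a u)) := by
  rw [BB, PM_apply, PM_apply, ExteriorAlgebra.map_apply_ιMulti]
  congr 1
  funext l
  rw [comp_apply, cv, TT_pr]
  rfl

/-- the span of the frames -/
noncomputable def WW (i : ℕ) : Submodule ℂ (ExteriorAlgebra ℂ (Fin n × Fin n → ℂ)) :=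
  Submodule.span ℂ {y | ∃ (a : Fin i × Bool → Fin n) (g : Matrix (Fin n) (Fin n) ℂ),
    Ok Γ a ∧ Nd Γ a ∧ Idl Γ a ∧ BU Γ.grp g ∧ y = ExteriorAlgebra.map (TT g) (BB Γ a)}

theorem WW_stab (i : ℕ) {γ : Matrix (Fin n) (Fin n) ℂ} (hγ : BU Γ.grp γ)
    {y : ExteriorAlgebra ℂ (Fin n × Fin n → ℂ)} (hy : y ∈ WW Γ i) :
    ExteriorAlgebra.map (TT γ) y ∈ WW Γ i := by
  have h1 : WW Γ i ≤ (WW Γ i).comap (ExteriorAlgebra.map (TT γ)).toLinearMap := by
    refine Submodule.span_le.2 ?_
    rintro _ ⟨a, g, h1, h2, h3, h4, rfl⟩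
    refine Submodule.subset_span ⟨a, γ * g, h1, h2, h3, BU_mul Γ.grp hγ h4, ?_⟩
    rw [← TT_comp, ← ExteriorAlgebra.map_comp_map]
    rfl
  exact h1 hy

theorem WW_row (i : ℕ) (a : Fin i × Bool → Fin n) (hB : BB Γ a ∈ WW Γ i) (p p' : Fin n)
    (hp : p < p') (hb : Γ.grp p = Γ.grp p') :
    ∑ u ∈ univ.filter (fun u => a u = p), BB Γ (update a u p') ∈ WW Γ i := by
  have h2 : ∑ u ∈ univ.filter (fun u => a u = p), BB Γ (update a u p') =
      ∑ u ∈ univ.filter (fun u => a u = p), PM (sl Γ a)
        (update (fun u => ee (a u)) u (if a u = p then ee p' else ee p)) := by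
    refine Finset.sum_congr rfl fun u hu => ?_
    have hu' := (Finset.mem_filter.1 hu).2
    have h3 : sl Γ (update a u p') = sl Γ a := by
      funext l
      unfold sl
      by_cases h : (l, false) = u
      · rw [h, update_self, hu', hb]
      · rw [update_of_ne h]
    rw [BB, h3, if_pos hu']
    congr 1
    funext t
    by_cases ht : t = u
    · subst ht
      rw [update_self, update_self]
    · rw [update_of_ne ht, update_of_ne ht]
  rw [h2]
  refine rot_close' (WW Γ i) (PM (sl Γ a)) (fun u => ee (a u))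
    (fun u => if a u = p then ee p' else ee p) (fun u => a u = p)
    (fun u => a u = p') (fun u h h' => hp.ne (h.symm.trans h')) ?_
  intro s t ζ hs hζ
  have hst : (s : ℂ) * s + ((s : ℂ) * (t * ζ)) * starRingEnd ℂ ((s : ℂ) * (t * ζ)) = 1 := by
    rw [map_mul, map_mul, Complex.conj_ofReal, Complex.conj_ofReal]
    have h3 : ((s : ℂ) * s) * (1 + t * t) = 1 := by exact_mod_cast hs
    linear_combination h3 + (s : ℂ) * s * t * t * hζ
  have h3 := WW_stab Γ i (pl_BU Γ.grp hp.ne hb (s : ℂ) ((s : ℂ) * (t * ζ)) (Complex.conj_ofReal s) hst)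
    hB
  rw [map_BB] at h3
  convert h3 using 2
  funext u
  rw [ee, Matrix.mulVec_single_one]
  funext w
  rw [Matrix.col_apply, pl_col hp.ne]
  by_cases h4 : a u = p
  · simp only [h4, if_true, Pi.smul_apply, Pi.add_apply, smul_eq_mul, ee, Pi.single_apply]
    by_cases h6 : w = p
    · simp [h6, hp.ne]
    · by_cases h7 : w = p'
      · simp [h7, hp.ne']
      · simp [h6, h7]
  · by_cases h4' : a u = p'
    · simp only [h4', hp.ne', if_true, if_false, Pi.smul_apply, Pi.sub_apply, smul_eq_mul, ee,
        Pi.single_apply]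
      by_cases h6 : w = p
      · simp [h6, hp.ne]
      · by_cases h7 : w = p'
        · simp [h7, hp.ne']
        · simp [h6, h7]
    · simp only [h4, h4', if_false, ee, Pi.single_apply]

theorem BB_sym (i : ℕ) : Sym Γ (BB Γ (i := i)) := by
  constructor
  · intro a ha l
    have h1 : sl Γ (a ∘ Equiv.swap (l, false) (l, true)) = sl Γ a := by
      funext k
      unfold sl
      rw [comp_apply]
      by_cases h : k = l
      · subst h
        rw [Equiv.swap_apply_left]
        exact ha.sg_eq rfl
      · rw [Equiv.swap_apply_of_ne_of_ne (by simp [h]) (by simp [h])]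
    rw [BB, h1, PM_apply, BB, PM_apply]
    have h2 : (fun k => cv (sl Γ a k) (fun u => ee ((a ∘ Equiv.swap (l, false) (l, true)) u)) k) =
        update (fun k => cv (sl Γ a k) (fun u => ee (a u)) k) l
          ((Γ.sg (Γ.grp (a (l, false))) : ℂ) • cv (sl Γ a l) (fun u => ee (a u)) l) := by
      funext k
      by_cases h : k = l
      · subst h
        rw [update_self]
        unfold cv
        simp only [comp_apply, Equiv.swap_apply_left, Equiv.swap_apply_right]
        funext w
        rw [Pi.smul_apply, pr_apply, pr_apply, smul_eq_mul]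
        have h3 : (Γ.sg (Γ.grp (a (k, false))) : ℂ) * (Γ.sg (Γ.grp (a (k, false))) : ℂ) = 1 := by
          exact_mod_cast Γ.sg_sq (Γ.grp (a (k, false)))
        unfold sl
        linear_combination (-(ee (a (k, true)) w.1 * ee (a (k, false)) w.2)) * h3
      · rw [update_of_ne h]
        unfold cv
        simp only [comp_apply]
        rw [Equiv.swap_apply_of_ne_of_ne (by simp [h]) (by simp [h]),
          Equiv.swap_apply_of_ne_of_ne (by simp [h]) (by simp [h])]
    rw [h2, AlternatingMap.map_update_smul, update_eq_self, Int.cast_smul_eq_zsmul]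
  · intro a k l hkl
    have h := (ExteriorAlgebra.ιMulti ℂ i (M := Fin n × Fin n → ℂ)).map_swap
      (fun l => cv (sl Γ a l) (fun u => ee (a u)) l) hkl
    exact h

/-- **The frames span.** -/
theorem WW_all (i : ℕ) (a : Fin i × Bool → Fin n) (ha : Ok Γ a) : BB Γ a ∈ WW Γ i := by
  refine core (WW Γ i) (BB Γ) (BB_sym Γ i) (fun a _ hB p p' hp hb => WW_row Γ i a hB p p' hp hb)
    ?_ a ha
  intro a h1 h2 h3
  refine Submodule.subset_span ⟨a, 1, h1, h2, h3, BU_one Γ.grp, ?_⟩
  rw [map_BB, BB]
  congr 1
  funext u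
  rw [Matrix.one_mulVec]

end frames

end Pool.Agent.Run7.h817.SY
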