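import Mathlib
import Pool.Agent.Run7.h817.SY.S1
import Pool.Agent.Run7.h490.MX4

set_option autoImplicit false
set_option linter.unusedSectionVars false
set_option linter.unusedVariables false

/-!
# Generic, symmetric and alternating matrices, part 4: the Hermitian symmetries
-/

namespace Pool.Agent.Run7.h817.SY

open Finset Function Pool.Agent.Run7.h490.MX

universe v w

section sign

variable {N : Type} [Fintype N] [DecidableEq N] {n : ℕ} {β : Type} [DecidableEq β] {Γ : Shape n β}

/-- the indices in the cells of `p` -/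
def row (a : N × Bool → Fin n) (p : Fin n) : Finset (Fin n) :=
  (univ.filter fun u => a u = p).image fun u => a (br u)

theorem mem_row {a : N × Bool → Fin n} {p q : Fin n} : q ∈ row a p ↔ ∃ u, a u = p ∧ a (br u) = q := by
  simp only [row, mem_image, mem_filter, mem_univ, true_and]

/-- the weight of an index -/
noncomputable def wt (Γ : Shape n β) (a : N × Bool → Fin n) (p : Fin n) : ℝ :=
  ((rows Γ.grp p).card : ℝ) - ((row a p).card : ℝ) + 1 / 4

theorem sub_row {a : N × Bool → Fin n} (hI : Idl Γ a) (u : N × Bool) :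
    (insert (a (br u)) (rows Γ.grp (a (br u)))).erase (a u) ⊆ row a (a u) := by
  intro q hq
  rw [mem_erase, mem_insert] at hq
  obtain ⟨hq1, rfl | hq2⟩ := hq
  · exact mem_row.2 ⟨u, rfl, rfl⟩
  · simp only [rows, mem_filter, mem_univ, true_and] at hq2
    obtain ⟨v, hv1, hv2⟩ := hI (br u) q hq2.1 hq2.2 (fun h => absurd (by rw [h, br_br]) hq1)
    rw [br_br] at hv2
    exact mem_row.2 ⟨br v, hv2, by rw [br_br, hv1]⟩

theorem wt_neg {a : N × Bool → Fin n} (hI : Idl Γ a) (u : N × Bool) :
    wt Γ a (a u) + wt Γ a (a (br u)) < 0 := by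
  have key : (rows Γ.grp (a u)).card + (rows Γ.grp (a (br u))).card + 1 ≤
      (row a (a u)).card + (row a (a (br u))).card := by
    by_cases h : a u = a (br u)
    · -- the diagonal
      have h1 : insert (a u) (rows Γ.grp (a u)) ⊆ row a (a u) := by
        intro q hq
        rcases mem_insert.1 hq with rfl | hq
        · exact mem_row.2 ⟨u, rfl, h.symm⟩
        · simp only [rows, mem_filter, mem_univ, true_and] at hq
          refine sub_row hI u ?_
          rw [mem_erase, mem_insert]
          refine ⟨hq.1.ne, Or.inr ?_⟩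
          rw [← h]
          simp only [rows, mem_filter, mem_univ, true_and]
          exact hq
      have h2 := Finset.card_le_card h1
      rw [Finset.card_insert_of_notMem (by simp [rows])] at h2
      rw [← h]
      omega
    · have h1 := Finset.card_le_card (sub_row hI u)
      have h2 := Finset.card_le_card (sub_row hI (br u))
      rw [br_br] at h2
      have h3 : (insert (a (br u)) (rows Γ.grp (a (br u)))).card =
          (rows Γ.grp (a (br u))).card + 1 := Finset.card_insert_of_notMem (by simp [rows])
      have h4 : (insert (a u) (rows Γ.grp (a u))).card =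
          (rows Γ.grp (a u)).card + 1 := Finset.card_insert_of_notMem (by simp [rows])
      have h5 := Finset.pred_card_le_card_erase (s := insert (a (br u)) (rows Γ.grp (a (br u))))
        (a := a u)
      have h6 := Finset.pred_card_le_card_erase (s := insert (a u) (rows Γ.grp (a u)))
        (a := a (br u))
      rcases lt_or_gt_of_ne h with h7 | h7
      · have h8 : (insert (a u) (rows Γ.grp (a u))).erase (a (br u)) =
            insert (a u) (rows Γ.grp (a u)) := by
          rw [Finset.erase_eq_self, mem_insert]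
          simp only [rows, mem_filter, mem_univ, true_and]
          rintro (h9 | h9)
          · exact h h9.symm
          · exact absurd h9.1 (not_lt.2 h7.le)
        rw [h8] at h2
        omega
      · have h8 : (insert (a (br u)) (rows Γ.grp (a (br u)))).erase (a u) =
            insert (a (br u)) (rows Γ.grp (a (br u))) := by
          rw [Finset.erase_eq_self, mem_insert]
          simp only [rows, mem_filter, mem_univ, true_and]
          rintro (h9 | h9)
          · exact h h9
          · exact absurd h9.1 (not_lt.2 h7.le)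
        rw [h8] at h1
        omega
  have key' : ((rows Γ.grp (a u)).card : ℝ) + ((rows Γ.grp (a (br u))).card : ℝ) + 1 ≤
      ((row a (a u)).card : ℝ) + ((row a (a (br u))).card : ℝ) := by exact_mod_cast key
  unfold wt
  linarith

theorem row_sub {a : N × Bool → Fin n} (ha : Ok Γ a) (hI : Idl Γ a) {x y : Fin n}
    (hxy : Γ.grp y = Γ.mate (Γ.grp x)) (halt : Γ.alt (Γ.grp x) = true → x ≠ y)
    (hne : ∀ u, a u = x → a (br u) ≠ y) : row a x ⊆ rows Γ.grp y := by
  intro q hq
  obtain ⟨u, rfl, rfl⟩ := mem_row.1 hq
  have hg : Γ.grp y = Γ.grp (a (br u)) := by rw [hxy, ha u]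
  simp only [rows, mem_filter, mem_univ, true_and]
  refine ⟨?_, hg.symm⟩
  rcases lt_trichotomy (a (br u)) y with h | h | h
  · exact h
  · exact absurd h (hne u rfl)
  · exfalso
    obtain ⟨v, hv1, hv2⟩ := hI (br u) y h hg (by
      intro h1
      rw [br_br] at h1
      rw [h1]
      by_contra h2
      exact halt (by simpa using h2) h1.symm)
    rw [br_br] at hv2
    exact hne (br v) hv2 (by rw [br_br, hv1])

theorem wt_pos {a : N × Bool → Fin n} (ha : Ok Γ a) (hI : Idl Γ a) {x y : Fin n}
    (hxy : Γ.grp y = Γ.mate (Γ.grp x)) (halt : Γ.alt (Γ.grp x) = true → x ≠ y)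
    (hne : ∀ u, a u = x → a (br u) ≠ y) : 0 < wt Γ a x + wt Γ a y := by
  have h1 := Finset.card_le_card (row_sub ha hI hxy halt hne)
  have h2 := Finset.card_le_card (row_sub (x := y) (y := x) ha hI (by rw [hxy, Γ.mate_mate])
    (fun h => (halt (by rw [hxy, Γ.alt_mate] at h; exact h)).symm)
    (fun u hu hu' => hne (br u) hu' (by rw [br_br, hu])))
  have h1' : ((row a x).card : ℝ) ≤ ((rows Γ.grp y).card : ℝ) := by exact_mod_cast h1
  have h2' : ((row a y).card : ℝ) ≤ ((rows Γ.grp x).card : ℝ) := by exact_mod_cast h2
  unfold wt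
  linarith

end sign

/-- The entries `F p q` of the generic matrices: symmetric or alternating according to the sign, and `0`
if the groups of `p` and `q` are not mates. -/
structure Entries {n : ℕ} {β : Type} (Γ : Shape n β) {S : Type w} [CommRing S]
    (F : Fin n → Fin n → S) : Prop where
  zero : ∀ p q, Γ.grp q ≠ Γ.mate (Γ.grp p) → F p q = 0
  symm : ∀ p q, F q p = Γ.sg (Γ.grp p) • F p q

/-- Unitary symmetries of `M`: for indices `p`, `p'` of one group there is an operator `L p p'` on `M` with
adjoint `L p' p` which acts on the entries of the matrices as the matrix unit `E_(p, p')`. -/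
structure Unitary {n : ℕ} {β : Type} (Γ : Shape n β) {S : Type w} [CommRing S]
    (F : Fin n → Fin n → S) (M : Type v) [NormedAddCommGroup M] [InnerProductSpace ℂ M] [Module S M]
    (L : Fin n → Fin n → M →ₗ[ℂ] M) : Prop where
  adjoint : ∀ p p', Γ.grp p = Γ.grp p' → ∀ x y : M, (inner ℂ (L p p' x) y : ℂ) = inner ℂ x (L p' p y)
  bracket : ∀ p p', Γ.grp p = Γ.grp p' → ∀ r s (x : M), L p p' (F r s • x) = F r s • L p p' x +
    ((if r = p' then F p s • x else 0) + (if s = p' then F r p • x else 0))

section herm

variable {S : Type w} [CommRing S] [Algebra ℂ S] {M : Type v} [NormedAddCommGroup M]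
  [InnerProductSpace ℂ M] [Module S M] [IsScalarTower ℂ S M]
  {n : ℕ} {β : Type} [DecidableEq β] {Γ : Shape n β} {F : Fin n → Fin n → S}
  {L : Fin n → Fin n → M →ₗ[ℂ] M}

/-- the operator of the symmetry -/
noncomputable def opp (L : Fin n → Fin n → M →ₗ[ℂ] M) (g : Matrix (Fin n) (Fin n) ℂ)
    (α : Fin n → ℝ) : M →ₗ[ℂ] M := ∑ p, ∑ p', hm g α p p' • L p p'

theorem opp_symm (hM : Unitary Γ F M L) {g : Matrix (Fin n) (Fin n) ℂ} (hg : BU Γ.grp g)
    (α : Fin n → ℝ) : (opp L g α).IsSymmetric := by
  intro x y
  have e1 : (inner ℂ (∑ p, ∑ p', hm g α p p' • L p p' x) y : ℂ) =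
      inner ℂ x (∑ p, ∑ p', hm g α p p' • L p p' y) := by
    simp only [sum_inner, inner_sum, inner_smul_left, inner_smul_right]
    rw [Finset.sum_comm]
    refine Finset.sum_congr rfl fun p _ => Finset.sum_congr rfl fun p' _ => ?_
    by_cases hb : Γ.grp p' = Γ.grp p
    · rw [hm_conj, hM.adjoint p' p hb]
    · rw [hm_zero hg α hb, hm_zero hg α (Ne.symm hb), map_zero, zero_mul, zero_mul]
  simpa only [opp, LinearMap.sum_apply, LinearMap.smul_apply] using e1

/-- the parameter belonging to the tensor `g_p ⊗ g_q` -/
noncomputable def FF (F : Fin n → Fin n → S) (g : Matrix (Fin n) (Fin n) ℂ) (x y : Fin n) : S :=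
  ∑ r, ∑ s, (g r x * g s y) • F r s

theorem opp_com (hM : Unitary Γ F M L) {g : Matrix (Fin n) (Fin n) ℂ} (hg : BU Γ.grp g)
    (α : Fin n → ℝ) (y z : Fin n) (x : M) : opp L g α (FF F g y z • x) =
      FF F g y z • opp L g α x + ((α y + α z : ℝ) : ℂ) • FF F g y z • x := by
  have hx : FF F g y z • x = ∑ r, ∑ s, (g r y * g s z) • (F r s • x) := by
    rw [FF, Finset.sum_smul]
    refine Finset.sum_congr rfl fun r _ => ?_
    rw [Finset.sum_smul]
    exact Finset.sum_congr rfl fun s _ => smul_smul' _ _ _
  have hL : ∀ p p', Γ.grp p = Γ.grp p' → L p p' (FF F g y z • x) = FF F g y z • L p p' x +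
      (∑ s, (g p' y * g s z) • (F p s • x) + ∑ r, (g r y * g p' z) • (F r p • x)) := by
    intro p p' hb
    have h1 : ∀ r s, L p p' ((g r y * g s z) • (F r s • x)) =
        ((g r y * g s z) • F r s) • L p p' x +
          ((if r = p' then (g r y * g s z) • (F p s • x) else 0) +
            (if s = p' then (g r y * g s z) • (F r p • x) else 0)) := by
      intro r s
      rw [map_smul, hM.bracket p p' hb, smul_add, smul_smul']
      congr 1
      rw [smul_add]
      congr 1
      · split_ifs <;> simp
      · split_ifs <;> simp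
    rw [hx, map_sum, FF, Finset.sum_smul]
    have h2 : ∀ r, L p p' (∑ s, (g r y * g s z) • (F r s • x)) =
        (∑ s, (g r y * g s z) • F r s) • L p p' x +
          ((if r = p' then ∑ s, (g r y * g s z) • (F p s • x) else 0) +
            (g r y * g p' z) • (F r p • x)) := by
      intro r
      rw [map_sum, Finset.sum_smul, Finset.sum_congr rfl fun s _ => h1 r s, Finset.sum_add_distrib,
        Finset.sum_add_distrib, Finset.sum_ite_eq' univ p', if_pos (mem_univ _)]
      congr 2
      split_ifs
      · rfl
      · exact Finset.sum_const_zero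
    rw [Finset.sum_congr rfl fun r _ => h2 r, Finset.sum_add_distrib, Finset.sum_add_distrib,
      Finset.sum_ite_eq' univ p', if_pos (mem_univ _)]
  have h2 : ∀ p p', hm g α p p' • L p p' (FF F g y z • x) =
      hm g α p p' • (FF F g y z • L p p' x) +
        (∑ s, (hm g α p p' * g p' y) • (g s z • (F p s • x)) +
          ∑ r, (hm g α p p' * g p' z) • (g r y • (F r p • x))) := by
    intro p p'
    by_cases hb : Γ.grp p = Γ.grp p'
    · rw [hL p p' hb, smul_add, smul_add, Finset.smul_sum, Finset.smul_sum]
      congr 2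
      · refine Finset.sum_congr rfl fun s _ => ?_
        rw [smul_smul, smul_smul]
        congr 1
        ring
      · refine Finset.sum_congr rfl fun s _ => ?_
        rw [smul_smul, smul_smul]
        congr 1
        ring
    · rw [hm_zero hg α hb]
      simp
  have h3 : ∀ p, ∑ p', ∑ s, (hm g α p p' * g p' y) • (g s z • (F p s • x)) =
      (α y : ℂ) • ∑ s, (g p y * g s z) • (F p s • x) := by
    intro p
    rw [Finset.sum_comm, Finset.smul_sum]
    refine Finset.sum_congr rfl fun s _ => ?_
    rw [← Finset.sum_smul, hm_eig hg α p y, smul_smul, smul_smul]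
    congr 1
    ring
  have h4 : ∀ p, ∑ p', ∑ r, (hm g α p p' * g p' z) • (g r y • (F r p • x)) =
      (α z : ℂ) • ∑ r, (g r y * g p z) • (F r p • x) := by
    intro p
    rw [Finset.sum_comm, Finset.smul_sum]
    refine Finset.sum_congr rfl fun r _ => ?_
    rw [← Finset.sum_smul, hm_eig hg α p z, smul_smul, smul_smul]
    congr 1
    ring
  simp only [opp, LinearMap.sum_apply, LinearMap.smul_apply, h2, Finset.sum_add_distrib, h3, h4]
  have h5 : ∑ p, (α y : ℂ) • ∑ s, (g p y * g s z) • (F p s • x) = (α y : ℂ) • FF F g y z • x := by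
    rw [← Finset.smul_sum, hx]
  have h6 : ∑ p, (α z : ℂ) • ∑ r, (g r y * g p z) • (F r p • x) = (α z : ℂ) • FF F g y z • x := by
    rw [← Finset.smul_sum, hx, Finset.sum_comm]
  have h7 : ∑ p, ∑ p', hm g α p p' • (FF F g y z • L p p' x) =
      FF F g y z • ∑ p, ∑ p', hm g α p p' • L p p' x := by
    rw [Finset.smul_sum]
    refine Finset.sum_congr rfl fun p _ => ?_
    rw [Finset.smul_sum]
    refine Finset.sum_congr rfl fun p' _ => ?_
    exact sc_comm _ _ _
  rw [h5, h6, h7, Complex.ofReal_add, add_smul]

end herm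

end Pool.Agent.Run7.h817.SY
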