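import Mathlib
import Pool.Agent.Run7.h817.SY.S3
import Pool.Agent.Run7.h817.SY.S4
import Pool.Agent.Run7.h490.MX5

set_option autoImplicit false
set_option linter.unusedSectionVars false
set_option linter.unusedVariables false

/-!
# Generic, symmetric and alternating matrices, part 5: the bound for the ranks
-/

namespace Pool.Agent.Run7.h817.SY

open Finset Function Pool.Agent.N672.HR Pool.Agent.Run7.h490.MX

universe v w

/-- `cell` enumerates the cells: every pair of indices whose groups are mates (not on the diagonal of an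
alternating matrix) is a value of `cell`, up to the order of the pair, for exactly one index. -/
structure Enum {n : ℕ} {β : Type} (Γ : Shape n β) {m : ℕ} (cell : Fin m → Fin n × Fin n) : Prop where
  inj : ∀ j j', (cell j = cell j' ∨ cell j = (cell j').swap) → j = j'
  mem : ∀ z : Fin n × Fin n, (Γ.grp z.2 = Γ.mate (Γ.grp z.1) ∧
    (Γ.alt (Γ.grp z.1) = true → z.1 ≠ z.2)) ↔ ∃ j, cell j = z ∨ cell j = z.swap

theorem ite_mul_ite (P Q : Prop) [Decidable P] [Decidable Q] (h : ¬ (P ∧ Q)) :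
    (if P then (1 : ℂ) else 0) * (if Q then 1 else 0) = 0 := by
  by_cases hP : P
  · rw [if_neg (fun hQ => h ⟨hP, hQ⟩), mul_zero]
  · rw [if_neg hP, zero_mul]

section minors

/-- the map from the exterior algebra to the minors -/
theorem exists_minors' {E : Type} [AddCommGroup E] [Module ℂ E] (m i : ℕ) (ρ : E →ₗ[ℂ] (Fin m → ℂ)) :
    ∃ Pl : ExteriorAlgebra ℂ E →ₗ[ℂ] ((Fin i ↪o Fin m) → ℂ),
      ∀ u : Fin i → E, Pl (ExteriorAlgebra.ιMulti ℂ i u) =
        fun J => Matrix.det fun k l => ρ (u k) (J l) := by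
  let D : (Fin i ↪o Fin m) → E [⋀^Fin i]→ₗ[ℂ] ℂ := fun J =>
    (Matrix.detRowAlternating (n := Fin i) (R := ℂ)).compLinearMap
      ((LinearMap.funLeft ℂ ℂ fun l => J l) ∘ₗ ρ)
  let P : (Fin i ↪o Fin m) → ExteriorAlgebra ℂ E →ₗ[ℂ] ℂ := fun J =>
    ExteriorAlgebra.liftAlternating (Function.update (fun _ => 0) i (D J))
  refine ⟨LinearMap.pi P, fun u => ?_⟩
  ext J
  rw [LinearMap.pi_apply]
  show ExteriorAlgebra.liftAlternating (Function.update (fun _ => 0) i (D J)) _ = _
  rw [ExteriorAlgebra.liftAlternating_apply_ιMulti, Function.update_self]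
  rfl

theorem det_diag {m i : ℕ} (J J' : Fin i ↪o Fin m) (d : Fin m → ℂ) :
    (Matrix.det fun k l => if J' l = J k then d (J k) else 0) =
      if J' = J then ∏ k, d (J k) else 0 := by
  by_cases h : J' = J
  · subst h
    rw [if_pos rfl]
    have h1 : (fun k l => if J' l = J' k then d (J' k) else 0 : Matrix (Fin i) (Fin i) ℂ) =
        Matrix.diagonal fun k => d (J' k) := by
      ext k l
      rw [Matrix.diagonal_apply]
      by_cases hkl : k = l
      · subst hkl
        simp
      · rw [if_neg hkl, if_neg]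
        intro h'
        exact hkl (J'.injective h').symm
    rw [h1, Matrix.det_diagonal]
  · rw [if_neg h]
    have h1 : ∃ k, ∀ l, J' l ≠ J k := by
      by_contra hcon
      push Not at hcon
      exact h (emb_eq J J' hcon).symm
    obtain ⟨k, hk⟩ := h1
    refine Matrix.det_eq_zero_of_row_eq_zero k fun l => ?_
    rw [if_neg (hk l)]

end minors

section cells

variable {n : ℕ} {β : Type} [DecidableEq β] {Γ : Shape n β} {m : ℕ} {cell : Fin m → Fin n × Fin n}

/-- the normalising factor of a cell -/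
noncomputable def kp (z : Fin n × Fin n) : ℂ := if z.1 = z.2 then 1 else (Real.sqrt 2 : ℂ)

theorem kp_sq (z : Fin n × Fin n) : kp z * kp z = if z.1 = z.2 then 1 else 2 := by
  unfold kp
  split_ifs
  · rw [one_mul]
  · rw [← Complex.ofReal_mul, Real.mul_self_sqrt (by norm_num)]
    norm_num

theorem kp_ne (z : Fin n × Fin n) : kp z ≠ 0 := by
  intro h
  have h1 := kp_sq z
  rw [h, mul_zero] at h1
  split_ifs at h1
  · exact one_ne_zero h1.symm
  · exact two_ne_zero h1.symm

theorem kp_conj (z : Fin n × Fin n) : starRingEnd ℂ (kp z) = kp z := by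
  unfold kp
  split_ifs
  · exact map_one _
  · exact Complex.conj_ofReal _

/-- sums over all pairs of symmetric functions supported by the cells -/
theorem sum_cells (hc : Enum Γ cell) {X : Type*} [AddCommGroup X] [Module ℂ X]
    (φ : Fin n × Fin n → X) (hs : ∀ z, φ z.swap = φ z)
    (hφ : ∀ z, ¬ (Γ.grp z.2 = Γ.mate (Γ.grp z.1) ∧ (Γ.alt (Γ.grp z.1) = true → z.1 ≠ z.2)) → φ z = 0) :
    ∑ j, (kp (cell j) * kp (cell j)) • φ (cell j) = ∑ p, ∑ q, φ (p, q) := by
  rw [← Fintype.sum_prod_type' (f := fun p q => φ (p, q))]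
  have h1 : ∀ j, (kp (cell j) * kp (cell j)) • φ (cell j) =
      ∑ z ∈ ({cell j, (cell j).swap} : Finset (Fin n × Fin n)), φ z := by
    intro j
    rw [kp_sq]
    by_cases h : (cell j).1 = (cell j).2
    · have h2 : (cell j).swap = cell j := Prod.ext h.symm h
      rw [if_pos h, h2, Finset.pair_eq_singleton, Finset.sum_singleton, one_smul]
    · have h2 : cell j ≠ (cell j).swap := fun h' => h (congrArg Prod.fst h')
      rw [if_neg h, Finset.sum_pair h2, hs, two_smul]
  rw [Finset.sum_congr rfl fun j _ => h1 j, ← Finset.sum_biUnion]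
  · refine Finset.sum_subset (Finset.subset_univ _) fun z _ hz => hφ z fun h => hz ?_
    obtain ⟨j, hj⟩ := (hc.mem z).1 h
    refine Finset.mem_biUnion.2 ⟨j, mem_univ _, ?_⟩
    rw [mem_insert, mem_singleton]
    rcases hj with hj | hj
    · exact Or.inl hj.symm
    · right
      rw [hj, Prod.swap_swap]
  · intro j _ j' _ hne
    rw [Function.onFun, Finset.disjoint_left]
    intro z hz hz'
    rw [mem_insert, mem_singleton] at hz hz'
    apply hne
    apply hc.inj
    rcases hz with hz | hz <;> rcases hz' with hz' | hz'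
    · exact Or.inl (hz.symm.trans hz')
    · exact Or.inr (hz.symm.trans hz')
    · right
      rw [← hz', hz, Prod.swap_swap]
    · left
      exact Prod.swap_injective (hz.symm.trans hz')

/-- the vector of a cell -/
noncomputable def wv (Γ : Shape n β) (g : Matrix (Fin n) (Fin n) ℂ) (z : Fin n × Fin n) :
    Fin n × Fin n → ℂ :=
  pr (Γ.sg (Γ.grp z.1)) (g.mulVec (ee z.1)) (g.mulVec (ee z.2))

theorem wv_apply (g : Matrix (Fin n) (Fin n) ℂ) (z w : Fin n × Fin n) :
    wv Γ g z w = g w.1 z.1 * g w.2 z.2 + (Γ.sg (Γ.grp z.1) : ℂ) * (g w.1 z.2 * g w.2 z.1) := by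
  rw [wv, pr_apply, ee, ee, Matrix.mulVec_single_one, Matrix.mulVec_single_one]
  rfl

theorem wv_swap' {g : Matrix (Fin n) (Fin n) ℂ} (z w : Fin n × Fin n) :
    wv Γ g z w.swap = (Γ.sg (Γ.grp z.1) : ℂ) * wv Γ g z w := by
  rw [wv_apply, wv_apply]
  simp only [Prod.fst_swap, Prod.snd_swap]
  have h3 : (Γ.sg (Γ.grp z.1) : ℂ) * (Γ.sg (Γ.grp z.1) : ℂ) = 1 := by
    exact_mod_cast Γ.sg_sq (Γ.grp z.1)
  linear_combination (-(g w.1 z.2 * g w.2 z.1)) * h3

theorem wv_supp {g : Matrix (Fin n) (Fin n) ℂ} (hg : BU Γ.grp g) {z : Fin n × Fin n}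
    (hz : Γ.grp z.2 = Γ.mate (Γ.grp z.1)) {w : Fin n × Fin n} (h : wv Γ g z w ≠ 0) :
    Γ.grp w.2 = Γ.mate (Γ.grp w.1) ∧ Γ.sg (Γ.grp w.1) = Γ.sg (Γ.grp z.1) := by
  rw [wv_apply] at h
  by_cases h1 : g w.1 z.1 * g w.2 z.2 = 0
  · rw [h1, zero_add] at h
    have h2 := right_ne_zero_of_mul h
    have h3 : Γ.grp w.1 = Γ.grp z.2 := by
      by_contra h'
      exact left_ne_zero_of_mul h2 (hg.2 _ _ h')
    have h4 : Γ.grp w.2 = Γ.grp z.1 := by
      by_contra h'
      exact right_ne_zero_of_mul h2 (hg.2 _ _ h')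
    exact ⟨by rw [h3, h4, hz, Γ.mate_mate], by rw [h3, hz, Γ.sg_mate]⟩
  · have h3 : Γ.grp w.1 = Γ.grp z.1 := by
      by_contra h'
      exact left_ne_zero_of_mul h1 (hg.2 _ _ h')
    have h4 : Γ.grp w.2 = Γ.grp z.2 := by
      by_contra h'
      exact right_ne_zero_of_mul h1 (hg.2 _ _ h')
    exact ⟨by rw [h3, h4, hz], by rw [h3]⟩

theorem wv_swap {g : Matrix (Fin n) (Fin n) ℂ} (hg : BU Γ.grp g) {z : Fin n × Fin n}
    (hz : Γ.grp z.2 = Γ.mate (Γ.grp z.1)) (w : Fin n × Fin n) :
    wv Γ g z w.swap = (Γ.sg (Γ.grp w.1) : ℂ) * wv Γ g z w := by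
  rw [wv_swap']
  by_cases h : wv Γ g z w = 0
  · rw [h, mul_zero, mul_zero]
  · rw [(wv_supp hg hz h).2]

theorem wv_zero {g : Matrix (Fin n) (Fin n) ℂ} (hg : BU Γ.grp g) {z : Fin n × Fin n}
    (hz : Γ.grp z.2 = Γ.mate (Γ.grp z.1)) (w : Fin n × Fin n)
    (hw : ¬ (Γ.grp w.2 = Γ.mate (Γ.grp w.1) ∧ (Γ.alt (Γ.grp w.1) = true → w.1 ≠ w.2))) :
    wv Γ g z w = 0 := by
  by_contra h
  apply hw
  refine ⟨(wv_supp hg hz h).1, fun halt he => h ?_⟩
  have h1 := wv_swap hg hz w
  have h2 : w.swap = w := Prod.ext he.symm he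
  rw [h2, Shape.sg, if_pos halt] at h1
  push_cast at h1
  have h3 : (2 : ℂ) * wv Γ g z w = 0 := by linear_combination h1
  exact (mul_eq_zero.1 h3).resolve_left two_ne_zero

theorem wv_inner {g : Matrix (Fin n) (Fin n) ℂ} (hg : BU Γ.grp g) (z z' : Fin n × Fin n) :
    ∑ p, ∑ q, wv Γ g z (p, q) * starRingEnd ℂ (wv Γ g z' (p, q)) =
      (1 + (Γ.sg (Γ.grp z.1) : ℂ) * Γ.sg (Γ.grp z'.1)) *
        ((if z'.1 = z.1 then 1 else 0) * (if z'.2 = z.2 then 1 else 0)) +
      ((Γ.sg (Γ.grp z.1) : ℂ) + Γ.sg (Γ.grp z'.1)) *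
        ((if z'.2 = z.1 then 1 else 0) * (if z'.1 = z.2 then 1 else 0)) := by
  rw [← BU_orth hg, ← BU_orth hg, ← BU_orth hg, ← BU_orth hg, Finset.sum_mul_sum,
    Finset.sum_mul_sum, Finset.mul_sum, Finset.mul_sum, ← Finset.sum_add_distrib]
  have h0 : ∀ k : ℤ, starRingEnd ℂ (k : ℂ) = k := fun k => map_intCast _ k
  -- expand
  have h1 : ∀ p q, wv Γ g z (p, q) * starRingEnd ℂ (wv Γ g z' (p, q)) =
      (starRingEnd ℂ (g p z'.1) * g p z.1 * (starRingEnd ℂ (g q z'.2) * g q z.2)) +
      (Γ.sg (Γ.grp z'.1) : ℂ) *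
        (starRingEnd ℂ (g p z'.2) * g p z.1 * (starRingEnd ℂ (g q z'.1) * g q z.2)) +
      ((Γ.sg (Γ.grp z.1) : ℂ) *
        (starRingEnd ℂ (g p z'.1) * g p z.2 * (starRingEnd ℂ (g q z'.2) * g q z.1)) +
      (Γ.sg (Γ.grp z.1) : ℂ) * (Γ.sg (Γ.grp z'.1) : ℂ) *
        (starRingEnd ℂ (g p z'.2) * g p z.2 * (starRingEnd ℂ (g q z'.1) * g q z.1))) := by
    intro p q
    rw [wv_apply, wv_apply]
    simp only [map_add, map_mul, h0]
    ring
  -- exchange the two indices in the last two terms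
  have h2 : ∑ p, ∑ q, ((Γ.sg (Γ.grp z.1) : ℂ) *
        (starRingEnd ℂ (g p z'.1) * g p z.2 * (starRingEnd ℂ (g q z'.2) * g q z.1)) +
      (Γ.sg (Γ.grp z.1) : ℂ) * (Γ.sg (Γ.grp z'.1) : ℂ) *
        (starRingEnd ℂ (g p z'.2) * g p z.2 * (starRingEnd ℂ (g q z'.1) * g q z.1))) =
      ∑ p, ∑ q, ((Γ.sg (Γ.grp z.1) : ℂ) *
        (starRingEnd ℂ (g q z'.1) * g q z.2 * (starRingEnd ℂ (g p z'.2) * g p z.1)) +
      (Γ.sg (Γ.grp z.1) : ℂ) * (Γ.sg (Γ.grp z'.1) : ℂ) *
        (starRingEnd ℂ (g q z'.2) * g q z.2 * (starRingEnd ℂ (g p z'.1) * g p z.1))) :=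
    Finset.sum_comm
  simp only [h1, Finset.sum_add_distrib (f := fun q => _ + (Γ.sg (Γ.grp z'.1) : ℂ) * _)]
  rw [Finset.sum_add_distrib, h2, ← Finset.sum_add_distrib]
  refine Finset.sum_congr rfl fun p _ => ?_
  rw [← Finset.sum_add_distrib, Finset.mul_sum, Finset.mul_sum, ← Finset.sum_add_distrib]
  refine Finset.sum_congr rfl fun q _ => ?_
  ring

end cells

section main

variable {S : Type w} [CommRing S] [Algebra ℂ S] {M : Type v} [NormedAddCommGroup M]
  [InnerProductSpace ℂ M] [Module S M] [IsScalarTower ℂ S M]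
  {n : ℕ} {β : Type} [DecidableEq β] {Γ : Shape n β} {F : Fin n → Fin n → S}
  {L : Fin n → Fin n → M →ₗ[ℂ] M}

/-- the normalised entries -/
noncomputable def nf (F : Fin n → Fin n → S) {m : ℕ} (cell : Fin m → Fin n × Fin n) (j : Fin m) : S :=
  kp (cell j) • F (cell j).1 (cell j).2

/-- the normalised coordinates -/
noncomputable def rh {m : ℕ} (cell : Fin m → Fin n × Fin n) :
    (Fin n × Fin n → ℂ) →ₗ[ℂ] (Fin m → ℂ) :=
  LinearMap.pi fun j => kp (cell j) • LinearMap.proj (cell j)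

theorem rh_apply {m : ℕ} (cell : Fin m → Fin n × Fin n) (w : Fin n × Fin n → ℂ) (j : Fin m) :
    rh cell w j = kp (cell j) * w (cell j) := by
  simp [rh]

theorem com_lin (Φ : M →ₗ[ℂ] M) (μ : ℂ) (c η : ℂ) (s t : S) (x : M)
    (hs : Φ (s • x) = s • Φ x + μ • s • x) (ht : Φ (t • x) = t • Φ x + μ • t • x) :
    Φ ((c • (s + η • t)) • x) = (c • (s + η • t)) • Φ x + μ • (c • (s + η • t)) • x := by
  have h1 : ∀ y : M, (c • (s + η • t)) • y = c • (s • y + η • (t • y)) := by
    intro y
    rw [smul_smul', add_smul, smul_smul']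
  rw [h1, h1, LinearMap.map_smul, map_add, LinearMap.map_smul, hs, ht]
  generalize s • Φ x = A
  generalize t • Φ x = B
  generalize s • x = C
  generalize t • x = D
  module

theorem frame_neg' {m : ℕ} {cell : Fin m → Fin n × Fin n} (hc : Enum Γ cell)
    (hF : Entries Γ F) (hM : Unitary Γ F M L) (i : ℕ) (hi : i ≤ m) (a : Fin i × Bool → Fin n)
    (ha : Ok Γ a) (hn : Nd Γ a) (hI : Idl Γ a) {g : Matrix (Fin n) (Fin n) ℂ} (hg : BU Γ.grp g) :
    (fun J : Fin i ↪o Fin m => Matrix.det fun k l =>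
      rh cell (cv (sl Γ a k) (fun u => g.mulVec (ee (a u))) k) (J l)) ∈
        Submodule.span ℂ (NegMinors (nf F cell) M i hi) := by
  have hcell : ∀ j, Γ.grp (cell j).2 = Γ.mate (Γ.grp (cell j).1) ∧
      (Γ.alt (Γ.grp (cell j).1) = true → (cell j).1 ≠ (cell j).2) := fun j =>
    (hc.mem (cell j)).2 ⟨j, Or.inl rfl⟩
  -- the enumeration
  have hex : ∀ l : Fin i, ∃ j, cell j = (a (l, false), a (l, true)) ∨
      cell j = (a (l, true), a (l, false)) := by
    intro l
    exact (hc.mem (a (l, false), a (l, true))).1 ⟨ha (l, false), hn.2 (l, false)⟩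
  choose j0 hj0 using hex
  have hslot : ∀ l, ∃ u : Fin i × Bool, u.1 = l ∧ a u = (cell (j0 l)).1 ∧
      a (br u) = (cell (j0 l)).2 := by
    intro l
    rcases hj0 l with h | h
    · exact ⟨(l, false), rfl, by rw [h], by rw [h]; rfl⟩
    · exact ⟨(l, true), rfl, by rw [h], by rw [h]; rfl⟩
  choose s0 hs0 hs1 hs2 using hslot
  have hj0i : Injective j0 := by
    intro l l' hl
    have h1 := hn.1 (s0 l) (s0 l') (by rw [hs1, hs1, hl]) (by rw [hs2, hs2, hl])
    rw [hs0, hs0] at h1
    exact h1.symm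
  have hcast : Injective (Fin.castLE hi) := Fin.castLE_injective hi
  let E : {x // x ∈ Set.range (Fin.castLE hi)} ≃ {x // x ∈ Set.range j0} :=
    (Equiv.ofInjective _ hcast).symm.trans (Equiv.ofInjective _ hj0i)
  set π : Equiv.Perm (Fin m) := E.extendSubtype with hπ
  have hπ1 : ∀ l : Fin i, π (Fin.castLE hi l) = j0 l := by
    intro l
    rw [hπ, Equiv.extendSubtype_apply_of_mem E _ ⟨l, rfl⟩]
    show ((Equiv.ofInjective _ hj0i) ((Equiv.ofInjective _ hcast).symm ⟨Fin.castLE hi l, _⟩) : Fin m) = _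
    have h1 : (Equiv.ofInjective _ hcast).symm ⟨Fin.castLE hi l, ⟨l, rfl⟩⟩ = l :=
      Equiv.ofInjective_symm_apply hcast l
    rw [h1]
    rfl
  let U : Matrix (Fin m) (Fin m) ℂ := fun k j =>
    kp (cell j) * (kp (cell (π k)) / 2 * wv Γ g (cell (π k)) (cell j))
  have hU : ∀ k j, U k j = kp (cell j) * (kp (cell (π k)) / 2 * wv Γ g (cell (π k)) (cell j)) :=
    fun k j => rfl
  have hsum : ∀ k, ∑ j, U k j • nf F cell j = (kp (cell (π k)) / 2) •
      (FF F g (cell (π k)).1 (cell (π k)).2 + (Γ.sg (Γ.grp (cell (π k)).1) : ℂ) •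
        FF F g (cell (π k)).2 (cell (π k)).1) := by
    intro k
    have h1 : ∀ j, U k j • nf F cell j = (kp (cell j) * kp (cell j)) •
        ((kp (cell (π k)) / 2 * wv Γ g (cell (π k)) (cell j)) • F (cell j).1 (cell j).2) := by
      intro j
      rw [hU, nf, smul_smul, smul_smul]
      congr 1
      ring
    rw [Finset.sum_congr rfl fun j _ => h1 j]
    rw [sum_cells hc (fun z => (kp (cell (π k)) / 2 * wv Γ g (cell (π k)) z) • F z.1 z.2)]
    · have h2 : ∀ p q, (kp (cell (π k)) / 2 * wv Γ g (cell (π k)) (p, q)) • F p q =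
          (kp (cell (π k)) / 2) • ((g p (cell (π k)).1 * g q (cell (π k)).2) • F p q) +
            (kp (cell (π k)) / 2) • ((Γ.sg (Γ.grp (cell (π k)).1) : ℂ) •
              ((g p (cell (π k)).2 * g q (cell (π k)).1) • F p q)) := by
        intro p q
        rw [wv_apply]
        module
      simp only [h2, Finset.sum_add_distrib, ← Finset.smul_sum]
      rw [← smul_add]
      rfl
    · intro z
      have h2 := wv_swap hg (hcell (π k)).1 z
      have h3 := hF.symm z.1 z.2
      show (_ * wv Γ g (cell (π k)) z.swap) • F z.2 z.1 = _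
      rw [h2, h3, ← Int.cast_smul_eq_zsmul ℂ, smul_smul]
      congr 1
      have h4 : (Γ.sg (Γ.grp z.1) : ℂ) * (Γ.sg (Γ.grp z.1) : ℂ) = 1 := by
        exact_mod_cast Γ.sg_sq (Γ.grp z.1)
      linear_combination (kp (cell (π k)) / 2 * wv Γ g (cell (π k)) z) * h4
    · intro z hz
      rw [wv_zero hg (hcell (π k)).1 z hz, mul_zero, zero_smul]
  have hmem : (fun J : Fin i ↪o Fin m => (U.submatrix (Fin.castLE hi) J).det) ∈
      NegMinors (nf F cell) M i hi := by
    refine ⟨U, fun k => wt Γ a (cell (π k)).1 + wt Γ a (cell (π k)).2,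
      opp L g (wt Γ a), ⟨?_, opp_symm hM hg _, ?_⟩, ?_, ?_, rfl⟩
    · ext k k'
      rw [Matrix.mul_apply, Matrix.one_apply]
      have h1 : ∀ j, U k j * U.conjTranspose j k' = (kp (cell j) * kp (cell j)) •
          ((kp (cell (π k)) / 2 * (kp (cell (π k')) / 2)) * (wv Γ g (cell (π k)) (cell j) *
            starRingEnd ℂ (wv Γ g (cell (π k')) (cell j)))) := by
        intro j
        rw [Matrix.conjTranspose_apply, hU, hU, smul_eq_mul]
        have e1 : star (kp (cell j) * (kp (cell (π k')) / 2 * wv Γ g (cell (π k')) (cell j))) =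
            starRingEnd ℂ (kp (cell j) * (kp (cell (π k')) / 2 * wv Γ g (cell (π k')) (cell j))) := rfl
        rw [e1, map_mul, map_mul, map_div₀, kp_conj, kp_conj, map_ofNat]
        ring
      rw [Finset.sum_congr rfl fun j _ => h1 j]
      rw [sum_cells hc (fun z => (kp (cell (π k)) / 2 * (kp (cell (π k')) / 2)) *
        (wv Γ g (cell (π k)) z * starRingEnd ℂ (wv Γ g (cell (π k')) z)))]
      · simp only [← Finset.mul_sum]
        rw [wv_inner hg]
        by_cases hk : k = k'
        · subst hk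
          rw [if_pos rfl]
          have h3 : (Γ.sg (Γ.grp (cell (π k)).1) : ℂ) * (Γ.sg (Γ.grp (cell (π k)).1) : ℂ) = 1 := by
            exact_mod_cast Γ.sg_sq (Γ.grp (cell (π k)).1)
          have h4 := kp_sq (cell (π k))
          by_cases h5 : (cell (π k)).1 = (cell (π k)).2
          · have h6 : Γ.sg (Γ.grp (cell (π k)).1) = 1 := by
              unfold Shape.sg
              rw [if_neg]
              intro h7
              exact (hcell (π k)).2 h7 h5
            rw [if_pos h5] at h4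
            rw [h6, if_pos rfl, if_pos rfl, if_pos h5.symm, if_pos h5]
            push_cast
            linear_combination h4
          · rw [if_neg h5] at h4
            rw [if_pos rfl, if_pos rfl, if_neg (Ne.symm h5), h3]
            linear_combination h4 / 2
        · rw [if_neg hk]
          have h3 : ¬ (cell (π k') = cell (π k) ∨ cell (π k') = (cell (π k)).swap) := fun h' =>
            hk (π.injective (hc.inj _ _ h')).symm
          have h5 : (if (cell (π k')).1 = (cell (π k)).1 then (1 : ℂ) else 0) *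
              (if (cell (π k')).2 = (cell (π k)).2 then 1 else 0) = 0 := by
            by_cases h6 : (cell (π k')).1 = (cell (π k)).1
            · rw [if_neg (c := (cell (π k')).2 = (cell (π k)).2), mul_zero]
              intro h7
              exact h3 (Or.inl (Prod.ext h6 h7))
            · rw [if_neg h6, zero_mul]
          have h6 : (if (cell (π k')).2 = (cell (π k)).1 then (1 : ℂ) else 0) *
              (if (cell (π k')).1 = (cell (π k)).2 then 1 else 0) = 0 := by
            by_cases h6 : (cell (π k')).2 = (cell (π k)).1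
            · rw [if_neg (c := (cell (π k')).1 = (cell (π k)).2), mul_zero]
              intro h7
              exact h3 (Or.inr (Prod.ext h7 h6))
            · rw [if_neg h6, zero_mul]
          rw [h5, h6, mul_zero, mul_zero, add_zero, mul_zero]
      · intro z
        have h2 := wv_swap hg (hcell (π k)).1 z
        have h3 := wv_swap hg (hcell (π k')).1 z
        have h4 : (Γ.sg (Γ.grp z.1) : ℂ) * (Γ.sg (Γ.grp z.1) : ℂ) = 1 := by
          exact_mod_cast Γ.sg_sq (Γ.grp z.1)
        have h5 : starRingEnd ℂ ((Γ.sg (Γ.grp z.1) : ℤ) : ℂ) = (Γ.sg (Γ.grp z.1) : ℂ) :=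
          map_intCast _ _
        show _ * (wv Γ g (cell (π k)) z.swap * starRingEnd ℂ (wv Γ g (cell (π k')) z.swap)) = _
        rw [h2, h3, map_mul, h5]
        linear_combination (kp (cell (π k)) / 2 * (kp (cell (π k')) / 2) *
          (wv Γ g (cell (π k)) z * starRingEnd ℂ (wv Γ g (cell (π k')) z))) * h4
      · intro z hz
        rw [wv_zero hg (hcell (π k)).1 z hz, zero_mul, mul_zero]
    · intro k x
      rw [hsum k]
      refine com_lin _ _ _ _ _ _ x ?_ ?_
      · exact opp_com hM hg (wt Γ a) _ _ x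
      · have h1 := opp_com hM hg (wt Γ a) (cell (π k)).2 (cell (π k)).1 x
        rw [h1, add_comm (wt Γ a (cell (π k)).2)]
    · intro k hk
      obtain ⟨l, rfl⟩ : ∃ l : Fin i, Fin.castLE hi l = k := ⟨⟨k, hk⟩, rfl⟩
      show wt Γ a (cell (π (Fin.castLE hi l))).1 + wt Γ a (cell (π (Fin.castLE hi l))).2 < 0
      rw [hπ1, ← hs1, ← hs2]
      exact wt_neg hI (s0 l)
    · intro k hk
      refine wt_pos ha hI (hcell (π k)).1 (hcell (π k)).2 fun u hu hu' => ?_
      -- the cell of `u` is the cell of the index `k`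
      have h1 : cell (j0 u.1) = cell (π k) ∨ cell (j0 u.1) = (cell (π k)).swap := by
        obtain ⟨l, t⟩ := u
        cases t
        · rcases hj0 l with h | h
          · left
            rw [h]
            exact Prod.ext hu hu'
          · right
            rw [h]
            exact Prod.ext hu' hu
        · rcases hj0 l with h | h
          · right
            rw [h]
            exact Prod.ext hu' hu
          · left
            rw [h]
            exact Prod.ext hu hu'
      have h2 := hc.inj _ _ h1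
      rw [← hπ1] at h2
      have h3 := π.injective h2
      rw [← h3] at hk
      have h4 := u.1.2
      simp only [Fin.val_castLE] at hk
      omega
  -- the scalar factors
  have hc2 : ∀ k : Fin i, ∃ c : ℂ, ∀ j, rh cell (cv (sl Γ a k) (fun u => g.mulVec (ee (a u))) k) j =
      c * U (Fin.castLE hi k) j := by
    intro k
    have hkp := kp_ne (cell (j0 k))
    rcases hj0 k with h | h
    · refine ⟨2 / kp (cell (j0 k)), fun j => ?_⟩
      rw [rh_apply, hU, hπ1]
      have h1 : cv (sl Γ a k) (fun u => g.mulVec (ee (a u))) k = wv Γ g (cell (j0 k)) := by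
        rw [wv, h]
        rfl
      rw [h1]
      field_simp
    · refine ⟨(Γ.sg (Γ.grp (a (k, false))) : ℂ) * (2 / kp (cell (j0 k))), fun j => ?_⟩
      rw [rh_apply, hU, hπ1]
      have h0 : Γ.sg (Γ.grp (a (k, true))) = Γ.sg (Γ.grp (a (k, false))) := ha.sg_eq rfl
      have h3 : (Γ.sg (Γ.grp (a (k, false))) : ℂ) * (Γ.sg (Γ.grp (a (k, false))) : ℂ) = 1 := by
        exact_mod_cast Γ.sg_sq (Γ.grp (a (k, false)))
      have h1 : cv (sl Γ a k) (fun u => g.mulVec (ee (a u))) k (cell j) =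
          (Γ.sg (Γ.grp (a (k, false))) : ℂ) * wv Γ g (cell (j0 k)) (cell j) := by
        rw [wv, h, cv, pr_apply, pr_apply, sl]
        simp only [h0]
        linear_combination (-(g.mulVec (ee (a (k, false))) (cell j).1 *
          g.mulVec (ee (a (k, true))) (cell j).2)) * h3
      rw [h1]
      field_simp
  choose c hc3 using hc2
  have hfin : (fun J : Fin i ↪o Fin m => Matrix.det fun k l =>
      rh cell (cv (sl Γ a k) (fun u => g.mulVec (ee (a u))) k) (J l)) =
      (∏ k, c k) • (fun J : Fin i ↪o Fin m => (U.submatrix (Fin.castLE hi) J).det) := by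
    funext J
    rw [Pi.smul_apply, smul_eq_mul, ← Matrix.det_mul_column]
    congr 1
    funext k l
    rw [hc3]
    rfl
  rw [hfin]
  exact Submodule.smul_mem _ _ (Submodule.subset_span hmem)

/-- **The bound for the normalised entries.** -/
theorem rank_le_nf [FiniteDimensional ℂ M] [Nontrivial M] {m : ℕ} {cell : Fin m → Fin n × Fin n}
    (hc : Enum Γ cell) (hF : Entries Γ F) (hM : Unitary Γ F M L)
    (hreg : ∀ (l : Fin m) (s : S), nf F cell l * s ∈ Ideal.span (nf F cell '' Set.Iio l) →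
      s ∈ Ideal.span (nf F cell '' Set.Iio l))
    [hfin : Module.Finite ℂ (S ⧸ Ideal.span (Set.range (nf F cell)))]
    (G : ℕ → Type v) [∀ i, AddCommGroup (G i)] [∀ i, Module S (G i)]
    [∀ i, Module.Free S (G i)] [∀ i, Module.Finite S (G i)]
    (d : ∀ i, G (i + 1) →ₗ[S] G i) (ε : G 0 →ₗ[S] M) (hε : Surjective ε)
    (hd0 : LinearMap.range (d 0) = LinearMap.ker ε)
    (hd : ∀ i, LinearMap.range (d (i + 1)) = LinearMap.ker (d i)) (i : ℕ) :
    m.choose i ≤ Module.finrank ℂ (S ⧸ Ideal.span (Set.range (nf F cell))) *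
      Module.finrank S (G i) := by
  by_cases hi : i ≤ m
  swap
  · rw [Nat.choose_eq_zero_of_lt (not_le.1 hi)]
    exact Nat.zero_le _
  refine le_trans ?_ (minor_rank t_nat t_nat t_ipr t_lin t_wed t_dec t_tma S m
    (nf F cell) hreg M G d ε hε hd0 hd i hi)
  have hcell : ∀ j, Γ.grp (cell j).2 = Γ.mate (Γ.grp (cell j).1) ∧
      (Γ.alt (Γ.grp (cell j).1) = true → (cell j).1 ≠ (cell j).2) := fun j =>
    (hc.mem (cell j)).2 ⟨j, Or.inl rfl⟩
  obtain ⟨Pl, hPl⟩ := exists_minors' m i (rh cell)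
  have h1 : (WW Γ i).map Pl ≤ Submodule.span ℂ (NegMinors (nf F cell) M i hi) := by
    rw [WW, Submodule.map_span]
    refine Submodule.span_le.2 ?_
    rintro _ ⟨_, ⟨a, g, h1, h2, h3, hg, rfl⟩, rfl⟩
    rw [map_BB, PM_apply, hPl]
    exact frame_neg' hc hF hM i hi a h1 h2 h3 hg
  set dd : Fin m → ℂ := fun j => kp (cell j) *
    (1 + if (cell j).1 = (cell j).2 then 1 else 0) with hdd
  have hdd0 : ∀ j, dd j ≠ 0 := by
    intro j
    refine mul_ne_zero (kp_ne _) ?_
    split_ifs <;> norm_num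
  let aJ : (Fin i ↪o Fin m) → Fin i × Bool → Fin n := fun J u =>
    if u.2 then (cell (J u.1)).2 else (cell (J u.1)).1
  have haJ : ∀ J, Ok Γ (aJ J) := by
    rintro J ⟨l, t⟩
    cases t
    · exact (hcell (J l)).1
    · show Γ.grp (cell (J l)).1 = Γ.mate (Γ.grp (cell (J l)).2)
      rw [(hcell (J l)).1, Γ.mate_mate]
  have hPJ : ∀ J J' : Fin i ↪o Fin m, Pl (BB Γ (aJ J)) J' =
      if J' = J then ∏ k, dd (J k) else 0 := by
    intro J J'
    rw [BB, PM_apply, hPl, ← det_diag]
    dsimp only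
    congr 1
    funext k l
    rw [rh_apply]
    show kp (cell (J' l)) * pr (Γ.sg (Γ.grp (cell (J k)).1)) (ee (cell (J k)).1)
      (ee (cell (J k)).2) (cell (J' l)) = _
    rw [pr_apply]
    simp only [ee, Pi.single_apply]
    by_cases h : J' l = J k
    · rw [if_pos h, h, hdd]
      dsimp only
      congr 1
      by_cases h5 : (cell (J k)).1 = (cell (J k)).2
      · have h6 : Γ.sg (Γ.grp (cell (J k)).1) = 1 := by
          unfold Shape.sg
          rw [if_neg]
          intro h7
          exact (hcell (J k)).2 h7 h5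
        rw [h6]
        simp [h5]
      · simp [h5]
    · rw [if_neg h]
      have h3 : ¬ (cell (J' l) = cell (J k) ∨ cell (J' l) = (cell (J k)).swap) := fun h' =>
        h (hc.inj _ _ h')
      have h5 : ¬ ((cell (J' l)).1 = (cell (J k)).1 ∧ (cell (J' l)).2 = (cell (J k)).2) :=
        fun h' => h3 (Or.inl (Prod.ext h'.1 h'.2))
      have h6 : ¬ ((cell (J' l)).1 = (cell (J k)).2 ∧ (cell (J' l)).2 = (cell (J k)).1) :=
        fun h' => h3 (Or.inr (Prod.ext h'.1 h'.2))
      have h7 : (if (cell (J' l)).1 = (cell (J k)).1 then (1 : ℂ) else 0) *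
          (if (cell (J' l)).2 = (cell (J k)).2 then 1 else 0) = 0 := by
        exact ite_mul_ite _ _ h5
      have h8 : (if (cell (J' l)).1 = (cell (J k)).2 then (1 : ℂ) else 0) *
          (if (cell (J' l)).2 = (cell (J k)).1 then 1 else 0) = 0 := by
        exact ite_mul_ite _ _ h6
      rw [h7, h8, mul_zero, add_zero, mul_zero]
  have h2 : (⊤ : Submodule ℂ ((Fin i ↪o Fin m) → ℂ)) ≤ (WW Γ i).map Pl := by
    intro x _
    have h3 : x = ∑ J, (x J / ∏ k, dd (J k)) • Pl (BB Γ (aJ J)) := by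
      funext J'
      rw [Finset.sum_apply]
      have h4 : ∀ J : Fin i ↪o Fin m, ((x J / ∏ k, dd (J k)) • Pl (BB Γ (aJ J))) J' =
          if J' = J then x J else 0 := by
        intro J
        rw [Pi.smul_apply, hPJ, smul_eq_mul]
        split_ifs
        · exact div_mul_cancel₀ _ (Finset.prod_ne_zero_iff.2 fun k _ => hdd0 _)
        · exact mul_zero _
      rw [Finset.sum_congr rfl fun J _ => h4 J, Finset.sum_ite_eq univ J', if_pos (mem_univ _)]
    rw [h3]
    refine Submodule.sum_mem _ fun J _ => Submodule.smul_mem _ _ (Submodule.mem_map_of_mem ?_)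
    exact WW_all Γ i _ (haJ J)
  have h3 := Submodule.finrank_mono (h2.trans h1)
  rw [finrank_top, Module.finrank_fintype_fun_eq_card] at h3
  exact (card_emb m i).trans h3

theorem span_nf {m : ℕ} (cell : Fin m → Fin n × Fin n) (s : Set (Fin m)) :
    Ideal.span (nf F cell '' s) = Ideal.span ((fun j => F (cell j).1 (cell j).2) '' s) := by
  apply le_antisymm
  · rw [Ideal.span_le]
    rintro _ ⟨j, hj, rfl⟩
    rw [nf, Algebra.smul_def]
    exact Ideal.mul_mem_left _ _ (Ideal.subset_span ⟨j, hj, rfl⟩)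
  · rw [Ideal.span_le]
    rintro _ ⟨j, hj, rfl⟩
    have h1 : F (cell j).1 (cell j).2 = algebraMap ℂ S (kp (cell j))⁻¹ * nf F cell j := by
      rw [nf, ← Algebra.smul_def, smul_smul, inv_mul_cancel₀ (kp_ne _), one_smul]
    dsimp only
    rw [h1]
    exact Ideal.mul_mem_left _ _ (Ideal.subset_span ⟨j, hj, rfl⟩)

/-- **The bound.** -/
theorem rank_le' [FiniteDimensional ℂ M] [Nontrivial M] {m : ℕ} {cell : Fin m → Fin n × Fin n}
    (hc : Enum Γ cell) (hF : Entries Γ F) (hM : Unitary Γ F M L)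
    (hreg : ∀ (l : Fin m) (s : S), F (cell l).1 (cell l).2 * s ∈
      Ideal.span ((fun j => F (cell j).1 (cell j).2) '' Set.Iio l) →
      s ∈ Ideal.span ((fun j => F (cell j).1 (cell j).2) '' Set.Iio l))
    (hfin : Module.Finite ℂ (S ⧸ Ideal.span (Set.range fun j => F (cell j).1 (cell j).2)))
    (G : ℕ → Type v) [∀ i, AddCommGroup (G i)] [∀ i, Module S (G i)]
    [∀ i, Module.Free S (G i)] [∀ i, Module.Finite S (G i)]
    (d : ∀ i, G (i + 1) →ₗ[S] G i) (ε : G 0 →ₗ[S] M) (hε : Surjective ε)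
    (hd0 : LinearMap.range (d 0) = LinearMap.ker ε)
    (hd : ∀ i, LinearMap.range (d (i + 1)) = LinearMap.ker (d i)) (i : ℕ) :
    m.choose i ≤ Module.finrank ℂ (S ⧸ Ideal.span (Set.range fun j => F (cell j).1 (cell j).2)) *
      Module.finrank S (G i) := by
  have h0 : Ideal.span (Set.range (nf F cell)) =
      Ideal.span (Set.range fun j => F (cell j).1 (cell j).2) := by
    rw [← Set.image_univ, ← Set.image_univ]
    exact span_nf cell _
  have hfin' : Module.Finite ℂ (S ⧸ Ideal.span (Set.range (nf F cell))) := by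
    rw [h0]
    exact hfin
  rw [← h0]
  refine rank_le_nf hc hF hM ?_ G d ε hε hd0 hd i
  intro l s hs
  rw [span_nf] at hs ⊢
  refine hreg l s ?_
  have h1 : F (cell l).1 (cell l).2 * s = algebraMap ℂ S (kp (cell l))⁻¹ * (nf F cell l * s) := by
    rw [← mul_assoc, nf, ← Algebra.smul_def, smul_smul, inv_mul_cancel₀ (kp_ne _), one_smul]
  rw [h1]
  exact Ideal.mul_mem_left _ _ hs

end main

end Pool.Agent.Run7.h817.SY
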